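import Pool.Agent.H18.CB.Defs

set_option autoImplicit false

/-!
# Bounded existential quantifiers in polynomial time

PROOF. `FP_bex`: iterate, `len (M v)` times, the step
`s ↦ node (node leaf (fst s)) (node (fst (snd s)) (cs (G (node (fst s) (fst (snd s)))) (snd (snd s)) tt))`
from `node leaf (node (X v) leaf)`; by induction on `k` the state after `k` steps is
`node (num k) (node (X v) f)`, `f ≠ leaf` iff some `m < k` has `G (node (num m) (X v)) ≠ leaf`.
Polynomial time by `FP.iterate_add` (a step adds at most a constant to the size, see the proof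
of `FP_key` in `Pool.Agent.H69.NL.Enum` or `FP.lk2'` in `Pool.Agent.H93.BB.Trie`);
`H v` is `snd (snd (state))`.

`FP_str`: copy the part `h3` of the proof of `FP_key` in `Pool.Agent.H69.NL.Enum` (there is the
function `succT^[..] leaf`, and `succT_iter`).

`FP_bexs`: apply `FP_bex` to `fun w => G (node (enc (sc^[len (fst w)] [])) (snd w))`.
-/

namespace Pool.Agent.H18.CB

open Pool.Agent.H88.RO Pool.Agent.H88.RO.Tr Pool.Agent.H65.TS Pool.Agent.H65.NU Pool.Agent.H69.NL

/-- one step of the search -/
def bexStep (G : Tr → Tr) (s : Tr) : Tr :=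
  node (node leaf (fst s)) (node (fst (snd s))
    (cs (G (node (fst s) (fst (snd s)))) (snd (snd s)) tt))

theorem size_bexStep (G : Tr → Tr) (s : Tr) : size (bexStep G s) ≤ size s + 12 := by
  unfold bexStep
  have h1 : size (cs (G (node (fst s) (fst (snd s)))) (snd (snd s)) tt) ≤
      size (snd (snd s)) + 3 := by
    by_cases h : G (node (fst s) (fst (snd s))) = leaf
    · rw [cs_pos _ _ h]; omega
    · rw [cs_neg _ _ h]
      simp only [tt, size]
      omega
  have h2 : size (fst s) + size (snd s) ≤ size s + 1 := Pool.Agent.H40.EL.size_pair_le s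
  have h3 : size (fst (snd s)) + size (snd (snd s)) ≤ size (snd s) + 1 :=
    Pool.Agent.H40.EL.size_pair_le (snd s)
  simp only [size]
  omega

theorem bexStep_iter (G : Tr → Tr) (x : Tr) (k : ℕ) : ∃ f : Tr,
    (bexStep G)^[k] (node leaf (node x leaf)) = node (num k) (node x f) ∧
      (f ≠ leaf ↔ ∃ m, m < k ∧ G (node (num m) x) ≠ leaf) := by
  induction k with
  | zero => exact ⟨leaf, rfl, by simp⟩
  | succ k ih =>
    obtain ⟨f, h1, h2⟩ := ih
    refine ⟨cs (G (node (num k) x)) f tt, ?_, ?_⟩
    · rw [Function.iterate_succ_apply', h1, bexStep]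
      rfl
    · by_cases h : G (node (num k) x) = leaf
      · rw [cs_pos _ _ h, h2]
        constructor
        · rintro ⟨m, hm, hG⟩
          exact ⟨m, by omega, hG⟩
        · rintro ⟨m, hm, hG⟩
          rcases Nat.lt_succ_iff_lt_or_eq.1 hm with h3 | h3
          · exact ⟨m, h3, hG⟩
          · subst h3
            exact absurd h hG
      · rw [cs_neg _ _ h]
        constructor
        · intro _
          exact ⟨k, Nat.lt_succ_self k, h⟩
        · intro _ h3
          exact Tr.noConfusion h3

theorem FP_bex {O : List Bool → Bool} {G : Tr → Tr} (hG : FP O G) {M X : Tr → Tr} (hM : FP O M)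
    (hX : FP O X) : ∃ H : Tr → Tr, FP O H ∧
      ∀ v, H v ≠ leaf ↔ ∃ m, m < len (M v) ∧ G (node (num m) (X v)) ≠ leaf := by
  have h1 : FP O (bexStep G) := by
    have hf : FP O (fun v => fst v) := FP.fst' FP.id'
    have hs : FP O (fun v => snd v) := FP.snd' FP.id'
    have hg : FP O (fun v => G (node (fst v) (fst (snd v)))) :=
      FP.comp' hG (FP.node' hf (FP.fst' hs))
    exact FP.node' (FP.node' FP.leaf' hf) (FP.node' (FP.fst' hs)
      (FP.cs' hg (FP.snd' hs) (FP.const' _)))
  have h2 : FP O (fun v => (bexStep G)^[len (M v)] (node leaf (node (X v) leaf))) :=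
    FP.iterate_add h1 hM (FP.node' FP.leaf' (FP.node' hX FP.leaf')) 12 (size_bexStep G)
  refine ⟨fun v => snd (snd ((bexStep G)^[len (M v)] (node leaf (node (X v) leaf)))),
    FP.snd' (FP.snd' h2), fun v => ?_⟩
  obtain ⟨f, h3, h4⟩ := bexStep_iter G (X v) (len (M v))
  change snd (snd ((bexStep G)^[len (M v)] (node leaf (node (X v) leaf)))) ≠ leaf ↔ _
  rw [h3, snd_node, snd_node]
  exact h4

theorem FP_str {O : List Bool → Bool} {F : Tr → Tr} (hF : FP O F) :
    FP O (fun v => enc (sc^[len (F v)] [])) := by
  have h3 : FP O (fun v => succT^[len (F v)] leaf) := by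
    refine FP.iterate' (F := fun s => succT s) (FP.succT' FP.id') hF FP.leaf'
      ⟨4 * Polynomial.X + 5, fun n x i hi => ?_⟩
    have h1 : ∀ i, len (succT^[i] x) ≤ len x + i := by
      intro i
      induction i with
      | zero => simp
      | succ i ih =>
        rw [Function.iterate_succ_apply']
        have := len_succT_le (succT^[i] x)
        omega
    simp only [Polynomial.eval_add, Polynomial.eval_mul, Polynomial.eval_ofNat, Polynomial.eval_X]
    cases i with
    | zero => simp; omega
    | succ i =>
      have h2 : (fun s => succT s)^[i + 1] x = succT (succT^[i] x) := by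
        rw [Function.iterate_succ_apply']
      rw [h2]
      have h3 := size_succT_le (succT^[i] x)
      have h4 := h1 i
      have h5 := len_le_size n
      have h6 := len_le_size x
      omega
  have e : (fun v => enc (sc^[len (F v)] [])) = (fun v => succT^[len (F v)] leaf) := by
    funext v
    rw [succT_iter]
  rw [e]
  exact h3

/-- the same for strings; `sc^[m] []` is the string number `m` -/
theorem FP_bexs {O : List Bool → Bool} {G : Tr → Tr} (hG : FP O G) {M X : Tr → Tr} (hM : FP O M)
    (hX : FP O X) : ∃ H : Tr → Tr, FP O H ∧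
      ∀ v, H v ≠ leaf ↔ ∃ m, m < len (M v) ∧ G (node (enc (sc^[m] [])) (X v)) ≠ leaf := by
  have hG' : FP O (fun w => G (node (enc (sc^[len (fst w)] [])) (snd w))) :=
    FP.comp' hG (FP.node' (FP_str (FP.fst' FP.id')) (FP.snd' FP.id'))
  obtain ⟨H, hH, hH2⟩ := FP_bex hG' hM hX
  refine ⟨H, hH, fun v => ?_⟩
  rw [hH2 v]
  simp only [fst_node, snd_node, len_num]

end Pool.Agent.H18.CB
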