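import Pool.Agent.H18.CB.Defs

set_option autoImplicit false

/-!
# The local test of tableaux: locality and soundness

PROOF. With `N = nA D z = D * (z.length + 1)`: by `chT_nil` and `chT_cons` (`Pool.Agent.H93.BB.TabCheck`)
the test at `[]` is `Root A N (code c) z` (the hypothesis `hK` of `chT_nil`,
`size (code c) + size (enc z) ≤ D * (z.length + 1)`, follows from `hD` and `size_enc_le` as in the proof
of `exists_TAB` in `Pool.Agent.H93.BB.Tab`), the test at `b :: a` is `HRule A N a` or `RRule A N a` if
`a.length = N`, and nothing otherwise.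
`Ok_congr`: all three notions read `A` only through `fld A N k a = (List.range N).map (fun j => A (qry k j a))`
with `k ≤ 7` and `a.length = N` (fields have length `N`, `length_fld`, and `nl N`), and the length
of `qry k j a` is `k + j + 2 + N ≤ 2 * N + 8` for `j < N`, `k ≤ 7`. So first prove
`fld A N k a = fld A' N k a` for `k ≤ 7`, `a.length = N`; for `HRule` and `RRule` rewrite; for `Root` use
induction on the tree in `Mt` (`Mt L R nul x a` depends only on `L`, `R` at pointers of length `N`),
or `Mt.map` from `Pool.Agent.H93.BB.TabRule` with the identity as homomorphism on pointers of length `N`.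
`Ok_of_length`: `chT_cons`.
`Ok_sound`: as in the proof of `exists_TAB` (third clause, `sound_STab`).
-/

namespace Pool.Agent.H18.CB

open Pool.Agent.H88.RO Pool.Agent.H88.RO.Tr Pool.Agent.H65.TS Pool.Agent.H65.NU Pool.Agent.H69.NL
open Pool.Agent.H93.BB Pool.Agent.H93.BB.Tab

theorem Mt_congr {A A' : Orc} {N : ℕ}
    (hf : ∀ k, k ≤ 7 → ∀ a : List Bool, a.length = N → fld A N k a = fld A' N k a) (x : Tr) :
    ∀ a : List Bool, a.length = N →
      (Mt (fld A N 0) (fld A N 1) (nl N) x a ↔ Mt (fld A' N 0) (fld A' N 1) (nl N) x a) := by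
  induction x with
  | leaf => intro a _; exact Iff.rfl
  | node x y ihx ihy =>
    intro a ha
    have h0 := hf 0 (by norm_num) a ha
    have h1 := hf 1 (by norm_num) a ha
    simp only [Mt]
    rw [h0, h1]
    have e1 := ihx (fld A' N 0 a) (length_fld _ _ _ _)
    have e2 := ihy (fld A' N 1 a) (length_fld _ _ _ _)
    rw [e1, e2]

theorem HRule_congr {A A' : Orc} {N : ℕ}
    (hf : ∀ k, k ≤ 7 → ∀ a : List Bool, a.length = N → fld A N k a = fld A' N k a)
    {a : List Bool} (ha : a.length = N) : HRule A N a ↔ HRule A' N a := by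
  unfold HRule
  rw [hf 0 (by norm_num) a ha, hf 1 (by norm_num) a ha]

theorem RRule_congr1 {A A' : Orc} {N : ℕ}
    (hf : ∀ k, k ≤ 7 → ∀ a : List Bool, a.length = N → fld A N k a = fld A' N k a)
    {a : List Bool} (ha : a.length = N) (h : RRule A N a) : RRule A' N a := by
  have l : ∀ k (b : List Bool), (fld A' N k b).length = N := fun k b => length_fld _ _ _ _
  have hom : Hom (fld A N 0) (fld A N 1) (nl N) (fld A' N 0) (fld A' N 1) (nl N)
      (fun b => b.length = N) (fun b => b) := by
    refine ⟨rfl, length_nl N, fun _ _ => length_fld _ _ _ _, fun _ _ => length_fld _ _ _ _, ?_, ?_,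
      fun _ _ => Iff.rfl⟩
    · intro b hb
      exact (hf 0 (by norm_num) b hb).symm
    · intro b hb
      exact (hf 1 (by norm_num) b hb).symm
  unfold RRule at h ⊢
  rw [hf 5 (by norm_num) a ha, hf 6 (by norm_num) a ha, hf 2 (by norm_num) a ha,
    hf 3 (by norm_num) a ha, hf 4 (by norm_num) a ha,
    hf 2 (by norm_num) _ (l 5 a), hf 3 (by norm_num) _ (l 5 a), hf 4 (by norm_num) _ (l 5 a),
    hf 2 (by norm_num) _ (l 6 a), hf 3 (by norm_num) _ (l 6 a), hf 4 (by norm_num) _ (l 6 a)] at h
  exact Rule.map hom id id (l 2 a) (l 3 a) (l 4 a) h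

theorem RRule_congr {A A' : Orc} {N : ℕ}
    (hf : ∀ k, k ≤ 7 → ∀ a : List Bool, a.length = N → fld A N k a = fld A' N k a)
    {a : List Bool} (ha : a.length = N) : RRule A N a ↔ RRule A' N a := by
  exact ⟨RRule_congr1 hf ha, RRule_congr1 (fun k hk b hb => (hf k hk b hb).symm) ha⟩

theorem Root_congr {A A' : Orc} {N : ℕ}
    (hf : ∀ k, k ≤ 7 → ∀ a : List Bool, a.length = N → fld A N k a = fld A' N k a)
    (x : Tr) (z : List Bool) : Root A N x z ↔ Root A' N x z := by
  have l : ∀ k (b : List Bool), (fld A' N k b).length = N := fun k b => length_fld _ _ _ _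
  unfold Root
  rw [hf 7 (by norm_num) _ (length_nl N), hf 2 (by norm_num) _ (l 7 _),
    hf 3 (by norm_num) _ (l 7 _), hf 4 (by norm_num) _ (l 7 _), hf 0 (by norm_num) _ (l 3 _),
    Mt_congr hf x _ (l 2 _), Mt_congr hf (enc z) _ (l 0 _)]

theorem hK_of {D : ℕ} {c : Prog} (hD : size (code c) + 4 ≤ D) (z : List Bool) :
    size (code c) + size (enc z) ≤ D * (z.length + 1) := by
  have h1 := size_enc_le z
  have h2 : 4 * (z.length + 1) + size (code c) * (z.length + 1) ≤ D * (z.length + 1) := by
    rw [← Nat.add_mul]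
    exact Nat.mul_le_mul_right _ (by omega)
  have h3 : size (code c) * 1 ≤ size (code c) * (z.length + 1) :=
    Nat.mul_le_mul_left _ (by omega)
  omega

/-- the test in terms of the rules -/
theorem Ok_nil_iff {D : ℕ} {c : Prog} (hD : size (code c) + 4 ≤ D) {A : Orc} {z : List Bool} :
    Ok D c A z [] ↔ Root A (nA D z) (code c) z :=
  chT_nil A (hK_of hD z)

theorem Ok_cons_iff {D : ℕ} {c : Prog} {A : Orc} {z : List Bool} (b : Bool) (a : List Bool) :
    Ok D c A z (b :: a) ↔ (a.length = nA D z → if b then RRule A (nA D z) a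
      else HRule A (nA D z) a) :=
  chT_cons A b a

/-- the test depends only on the fields -/
theorem Ok_congr_fld {D : ℕ} {c : Prog} (hD : size (code c) + 4 ≤ D) {A A' : Orc} {z : List Bool}
    (hf : ∀ k, k ≤ 7 → ∀ a : List Bool, a.length = nA D z →
      fld A (nA D z) k a = fld A' (nA D z) k a) (u : List Bool) :
    Ok D c A z u ↔ Ok D c A' z u := by
  cases u with
  | nil => rw [Ok_nil_iff hD, Ok_nil_iff hD]; exact Root_congr hf _ _
  | cons b a =>
    rw [Ok_cons_iff, Ok_cons_iff]
    refine imp_congr_right (fun ha => ?_)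
    cases b with
    | false => exact HRule_congr hf ha
    | true => exact RRule_congr hf ha

theorem length_qry (k j : ℕ) (a : List Bool) : (qry k j a).length = k + j + 2 + a.length := by
  simp [qry]
  omega

/-- the test depends only on the values of the oracle at strings of length at most `nL D z` -/
theorem Ok_congr {D : ℕ} {c : Prog} (hD : size (code c) + 4 ≤ D) {A A' : Orc} {z : List Bool}
    (h : ∀ q : List Bool, q.length ≤ nL D z → A q = A' q) (u : List Bool) :
    Ok D c A z u ↔ Ok D c A' z u := by
  refine Ok_congr_fld hD (fun k hk a ha => ?_) u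
  unfold fld
  apply List.map_congr_left
  intro j hj
  rw [List.mem_range] at hj
  apply h
  rw [length_qry, nL, ha]
  omega

/-- positions of other lengths pass the test -/
theorem Ok_of_length {D : ℕ} {c : Prog} {A : Orc} {z u : List Bool} (h0 : u ≠ [])
    (h : u.length ≠ nA D z + 1) : Ok D c A z u := by
  cases u with
  | nil => exact absurd rfl h0
  | cons b a =>
    rw [Ok_cons_iff]
    intro ha
    exact absurd (by rw [List.length_cons, ha]) h

/-- soundness of tableaux -/
theorem Ok_sound {D : ℕ} {c : Prog} (hD : size (code c) + 4 ≤ D) {A : Orc} {z : List Bool}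
    (h : ∀ u, Ok D c A z u) :
    ∃ (Y v : Tr) (t : ℕ), v ≠ leaf ∧ Eval zero c (node (enc z) Y) v t := by
  refine sound_STab (A := A) (N := nA D z) ?_ ?_ ((Ok_nil_iff hD).mp (h []))
  · intro a ha
    exact (Ok_cons_iff false a).mp (h (false :: a)) ha
  · intro a ha
    exact (Ok_cons_iff true a).mp (h (true :: a)) ha

end Pool.Agent.H18.CB
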