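import Pool.Agent.H18.CB.Defs

set_option autoImplicit false

/-!
# Uniform programs with a parametrised oracle

PROOF. Let `(c, q)` be the program and the bound of `hF`, and `P` a unary program (`exists_polyT`) of
the polynomial `C (size (code c) + 10) * q + 10`. Then `F (Ω (E v)) (G v)` is
`snd (U (Ω (E v)) (code c) (G v) (len (P (H v))))` by `U_eq` (the time is at most
`q (size (G v)) ≤ q (len (H v))`, `poly_mono`), and this is polynomial time by `FP.UΩ` and `FP.snd'`.
(Compare `exists_run` in `Pool.Agent.H69.NL.Run` and `FP.UTrie` in `Pool.Agent.H93.BB.RefFP`.)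
-/

namespace Pool.Agent.H18.CB

open Pool.Agent.H88.RO Pool.Agent.H88.RO.Tr Pool.Agent.H65.TS Pool.Agent.H65.NU Pool.Agent.H69.NL
open Pool.Agent.H93.BB (Orc zero UFP)

theorem UFP_subst {F : Orc → Tr → Tr} (hF : UFP F) {Ω : Tr → Orc} (hΩ : FPO zero Ω)
    {E G H : Tr → Tr} (hE : FP zero E) (hG : FP zero G) (hH : FP zero H)
    (hs : ∀ v, size (G v) ≤ len (H v)) : FP zero (fun v => F (Ω (E v)) (G v)) := by
  obtain ⟨c, q, hc⟩ := hF
  obtain ⟨P, hP1, hP2⟩ := exists_polyT (Polynomial.C (size (code c) + 10) * q + 10)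
  have key : (fun v => F (Ω (E v)) (G v)) =
      fun v => snd (U (Ω (E v)) (code c) (G v) (len (P (H v)))) := by
    funext v
    obtain ⟨t, ht, he⟩ := hc (Ω (E v)) (G v)
    rw [U_eq he, snd_node]
    rw [hP1, len_num]
    simp only [Polynomial.eval_add, Polynomial.eval_mul, Polynomial.eval_C, Polynomial.eval_ofNat]
    have h1 : t ≤ q.eval (len (H v)) := ht.trans (poly_mono q (hs v))
    exact Nat.add_le_add_right (Nat.mul_le_mul_left _ h1) _
  rw [key]
  exact FP.snd' (FP.UΩ hΩ hE (FP.const' _) hG (hP2 zero H hH))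

end Pool.Agent.H18.CB
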