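import Pool.Agent.H18.CB.Defs

set_option autoImplicit false

/-!
# Look-up in tables in polynomial time

PROOF. `tor y q = y.getD (val q) false` is the head of `y.drop (val q)`, and
`val (b :: q) = (if b then 1 else 0) + 2 * val q`. States `node (node p y0) (node q y)`: `p` is a
unary number, the current power of two, but `len y0 + 1` if it is larger than `len y0` (then dropping
`len p` elements leaves nothing); `q` are the remaining bits of the query, `y` is the remaining table.
One step (if `q` is not `leaf`): if the first bit of `q` is `true` then drop `len p` elements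
of `y` (`dropU`), then double `p` (`addU p p`, replaced by `node leaf (ulen y0)` if it is
longer than `y0`), and take the tail of `q`. Invariant: after the steps for a prefix of the query, the
remaining table is `y0.drop (min (value of the prefix) (length + 1))`, up to dropping everything.
(The size of all components is bounded: `FP.iterate'` with the polynomial bound from the invariant
`len p ≤ len y0 + 1`, or start with `ulen`; an alternative is to keep the two lists of the even
and odd entries of `y`: `tor y (b :: q) = tor (dei b y) q`, where `dei b y` has the entries of `y`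
with numbers of parity `b`; then no component ever grows.)
Join with `zero` as in `FPO.trie` (`Pool.Agent.H93.BB.Trie`).
-/

namespace Pool.Agent.H18.CB

open Pool.Agent.H88.RO Pool.Agent.H88.RO.Tr Pool.Agent.H65.TS Pool.Agent.H65.NU Pool.Agent.H69.NL
open Pool.Agent.H93.BB (Orc zero UFP)
open Pool.Agent.H93.BB.Tab (val)

variable {O : List Bool → Bool}

/-- the entries with even numbers -/
private def evs : List Bool → List Bool
  | [] => []
  | [a] => [a]
  | a :: _ :: l => a :: evs l

private theorem evs_getD (l : List Bool) : ∀ n, (evs l).getD n false = l.getD (2 * n) false := by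
  induction l using evs.induct with
  | case1 => intro n; simp [evs]
  | case2 a =>
    intro n
    cases n with
    | zero => simp [evs]
    | succ n =>
      have e : 2 * (n + 1) = (2 * n + 1) + 1 := by ring
      rw [evs, e]
      simp
  | case3 a b l ih =>
    intro n
    cases n with
    | zero => simp [evs]
    | succ n =>
      have e : 2 * (n + 1) = (2 * n + 1) + 1 := by ring
      rw [evs, e, List.getD_cons_succ, List.getD_cons_succ, List.getD_cons_succ]
      exact ih n

/-- one step of the selection of the even entries; states are `node y acc` -/
private def dstep (s : Tr) : Tr :=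
  cs (fst s) s (node (snd (snd (fst s))) (node (fst (fst s)) (snd s)))

private theorem size_dstep (s : Tr) : size (dstep s) ≤ size s + 2 := by
  unfold dstep
  by_cases h : fst s = leaf
  · rw [cs_pos _ _ h]
    omega
  · rw [cs_neg _ _ h]
    cases s with
    | leaf => simp at h
    | node a b =>
      cases a with
      | leaf => simp at h
      | node c d =>
        have h1 := size_snd_le d
        simp only [fst_node, snd_node, size] at h1 ⊢
        omega

private theorem len_dstep (s : Tr) :
    len (fst (dstep s)) + len (snd (dstep s)) ≤ len (fst s) + len (snd s) := by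
  unfold dstep
  by_cases h : fst s = leaf
  · rw [cs_pos _ _ h]
  · rw [cs_neg _ _ h]
    cases s with
    | leaf => simp at h
    | node a b =>
      cases a with
      | leaf => simp at h
      | node c d =>
        simp only [fst_node, snd_node, len, len_snd]
        omega

private theorem dstep_iter (l : List Bool) : ∀ (n : ℕ) (acc : List Bool), l.length ≤ n →
    dstep^[n] (node (enc l) (enc acc)) = node leaf (enc ((evs l).reverse ++ acc)) := by
  have hleaf : ∀ (n : ℕ) (acc : List Bool),
      dstep^[n] (node leaf (enc acc)) = node leaf (enc acc) := by
    intro n acc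
    induction n with
    | zero => rfl
    | succ n ih =>
      rw [Function.iterate_succ_apply]
      exact ih
  induction l using evs.induct with
  | case1 =>
    intro n acc _
    exact hleaf n acc
  | case2 a =>
    intro n acc hn
    cases n with
    | zero => simp at hn
    | succ n =>
      rw [Function.iterate_succ_apply]
      have e : dstep (node (enc [a]) (enc acc)) = node leaf (enc (a :: acc)) := rfl
      rw [e, hleaf]
      simp [evs]
  | case3 a b l ih =>
    intro n acc hn
    cases n with
    | zero => simp at hn
    | succ n =>
      rw [Function.iterate_succ_apply]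
      have e : dstep (node (enc (a :: b :: l)) (enc acc)) = node (enc l) (enc (a :: acc)) := rfl
      rw [e, ih n (a :: acc) (by simp only [List.length_cons] at hn; omega)]
      simp [evs]

/-- the entries with even numbers, as a program -/
private def evT (y : Tr) : Tr := revN (snd (dstep^[len y] (node y leaf)))

private theorem evT_enc (l : List Bool) : evT (enc l) = enc (evs l) := by
  have e : (leaf : Tr) = enc [] := rfl
  rw [evT, e, dstep_iter l _ [] (by simp), snd_node, revN_eq, dec_enc]
  simp

private theorem len_evT (y : Tr) : len (evT y) ≤ len y := by
  have h : ∀ n s, len (fst (dstep^[n] s)) + len (snd (dstep^[n] s)) ≤ len (fst s) + len (snd s) := by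
    intro n
    induction n with
    | zero => intro s; exact le_rfl
    | succ n ih =>
      intro s
      rw [Function.iterate_succ_apply]
      exact (ih _).trans (len_dstep s)
  have h1 := h (len y) (node y leaf)
  rw [evT, revN_eq, len_enc, List.length_reverse, length_dec]
  simp only [fst_node, snd_node, len] at h1
  omega

private theorem size_evT (y : Tr) : size (evT y) ≤ 4 * len y + 1 := by
  have h1 := len_evT y
  rw [evT, revN_eq] at h1 ⊢
  rw [len_enc] at h1
  have h2 := size_enc_le (dec (snd (dstep^[len y] (node y leaf)))).reverse
  omega

private theorem FP_evT {F : Tr → Tr} (hF : FP O F) : FP O (fun v => evT (F v)) := by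
  have h1 : FP O (fun s : Tr => fst s) := FP.fst' FP.id'
  have hd : FP O dstep := by
    unfold dstep
    exact FP.cs' h1 FP.id' (FP.node' (FP.snd' (FP.snd' h1)) (FP.node' (FP.fst' h1) (FP.snd' FP.id')))
  exact FP.revN' (FP.snd' (FP.iterate_add hd hF (FP.node' hF FP.leaf') 2 size_dstep))

/-- one step of the look-up; states are `node q y` -/
private def tostep (s : Tr) : Tr :=
  cs (fst s) s (node (snd (fst s)) (evT (cs (fst (fst s)) (snd s) (snd (snd s)))))

private theorem FP_tostep : FP O tostep := by
  have h1 : FP O (fun s : Tr => fst s) := FP.fst' FP.id'
  have h2 : FP O (fun s : Tr => snd s) := FP.snd' FP.id'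
  unfold tostep
  exact FP.cs' h1 FP.id' (FP.node' (FP.snd' h1) (FP_evT (FP.cs' (FP.fst' h1) h2 (FP.snd' h2))))

private theorem tostep_inv (s : Tr) (K : ℕ) (h1 : size (fst s) ≤ K) (h2 : len (snd s) ≤ K)
    (h3 : size (snd s) ≤ 4 * K + 1) :
    size (fst (tostep s)) ≤ K ∧ len (snd (tostep s)) ≤ K ∧ size (snd (tostep s)) ≤ 4 * K + 1 := by
  unfold tostep
  by_cases h : fst s = leaf
  · rw [cs_pos _ _ h]
    exact ⟨h1, h2, h3⟩
  · rw [cs_neg _ _ h]
    have h4 := size_snd_le (fst s)
    have h5 : len (cs (fst (fst s)) (snd s) (snd (snd s))) ≤ K := by
      unfold cs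
      split_ifs
      · exact h2
      · rw [len_snd]
        omega
    have h6 := len_evT (cs (fst (fst s)) (snd s) (snd (snd s)))
    have h7 := size_evT (cs (fst (fst s)) (snd s) (snd (snd s)))
    rw [fst_node, snd_node]
    refine ⟨by omega, by omega, by omega⟩

private theorem tostep_iter (q : Tr) : ∀ y : List Bool, ∃ y' : List Bool,
    tostep^[len q] (node q (enc y)) = node leaf (enc y') ∧
      y'.headD false = y.getD (val (dec q)) false := by
  induction q with
  | leaf =>
    intro y
    refine ⟨y, rfl, ?_⟩
    cases y <;> simp [dec, val]
  | node b q _ ih =>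
    intro y
    rw [len, Function.iterate_succ_apply]
    by_cases hb : b = leaf
    · subst hb
      obtain ⟨y', h1, h2⟩ := ih (evs y)
      have e : tostep (node (node leaf q) (enc y)) = node q (enc (evs y)) := by
        rw [tostep, cs_neg _ _ (by simp)]
        simp only [fst_node, snd_node, cs_leaf, evT_enc]
      refine ⟨y', by rw [e, h1], ?_⟩
      rw [h2, evs_getD]
      simp [dec, val]
    · obtain ⟨y', h1, h2⟩ := ih (evs y.tail)
      have e : tostep (node (node b q) (enc y)) = node q (enc (evs y.tail)) := by
        rw [tostep, cs_neg _ _ (by simp)]
        simp only [fst_node, snd_node]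
        rw [cs_neg _ _ hb]
        have e2 : snd (enc y) = enc y.tail := by cases y <;> rfl
        rw [e2, evT_enc]
      refine ⟨y', by rw [e, h1], ?_⟩
      rw [h2, evs_getD]
      have e3 : val (dec (node b q)) = 2 * val (dec q) + 1 := by
        simp [dec, val, hb]
        ring
      rw [e3]
      cases y <;> simp

private def torT (θ q : Tr) : Tr := fst (snd (tostep^[len q] (node q (norm θ))))

private theorem torT_eq (θ q : Tr) : torT θ q = bit (tor (dec θ) (dec q)) := by
  obtain ⟨y', h1, h2⟩ := tostep_iter q (dec θ)
  rw [torT, norm_eq, h1, snd_node]
  have e : fst (enc y') = bit (y'.headD false) := by cases y' <;> rfl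
  rw [e, h2]
  rfl

private theorem FP_torT {F G : Tr → Tr} (hF : FP O F) (hG : FP O G) :
    FP O (fun v => torT (F v) (G v)) := by
  refine FP.fst' (FP.snd' (FP.iterate' FP_tostep hG (FP.node' hG (FP.norm' hF)) ?_))
  refine ⟨6 * Polynomial.X + 6, fun n x i _ => ?_⟩
  have h : ∀ i, size (fst (tostep^[i] x)) ≤ size x ∧ len (snd (tostep^[i] x)) ≤ size x ∧
      size (snd (tostep^[i] x)) ≤ 4 * size x + 1 := by
    intro i
    induction i with
    | zero =>
      have h1 := size_fst_le x
      have h2 := size_snd_le x
      have h3 := len_le_size (snd x)
      simp only [Function.iterate_zero, id_eq]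
      refine ⟨by omega, by omega, by omega⟩
    | succ i ih =>
      rw [Function.iterate_succ_apply']
      exact tostep_inv _ _ ih.1 ih.2.1 ih.2.2
  have h1 := h i
  have h2 : ∀ s : Tr, size s ≤ size (fst s) + size (snd s) + 1 := by
    intro s
    cases s <;> simp [size]
  have h3 := h2 (tostep^[i] x)
  simp only [Polynomial.eval_mul, Polynomial.eval_add, Polynomial.eval_ofNat, Polynomial.eval_X]
  omega

/-- The oracles given by tables are computable in polynomial time. -/
theorem FPO_tor : FPO zero (fun θ => join (tor (dec θ)) zero) := by
  intro F G hF hG
  have h : (fun v => bit (join (tor (dec (F v))) zero (dec (G v)))) = fun v =>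
      cs (G v) leaf (cs (fst (G v)) (torT (F v) (snd (G v))) leaf) := by
    funext v
    cases hq : G v with
    | leaf => simp [dec, join, bit]
    | node a b =>
      rw [cs_neg _ _ (by simp), fst_node, snd_node]
      by_cases ha : a = leaf
      · subst ha
        rw [cs_leaf, torT_eq]
        have e : join (tor (dec (F v))) zero (dec (node leaf b)) = tor (dec (F v)) (dec b) := by
          simp [dec, join]
        rw [e]
      · rw [cs_neg _ _ ha]
        have e : join (tor (dec (F v))) zero (dec (node a b)) = zero (dec b) := by
          simp [dec, ha, join]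
        rw [e]
        rfl
  rw [h]
  exact FP.cs' hG FP.leaf' (FP.cs' (FP.fst' hG) (FP_torT hF (FP.snd' hG)) FP.leaf')

end Pool.Agent.H18.CB
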