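import Pool.Agent.H18.CB.ZT
import Pool.Agent.H18.CB.Subst
import Pool.Agent.H18.CB.TorF
import Pool.Agent.H18.CB.Loc
import Pool.Agent.H18.CB.Bex

set_option autoImplicit false

/-!
# The program which tests a table at all positions

PROOF. For `x = node X Y` with `len X = n` and `Y = enc y`: the table fails at some position `u` iff
for some `m < y.length` it fails at the string number `m`, `sc^[m] []` (if `y.length = 2 ^ F.L n`):
the positions where the test can fail are `[]` and those of length `N + 1`, `N = nA F.D z` (`Ok_of_length`),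
`u = sc^[sval u] []` (`sc_iter_sval`), `sval u < 2 ^ (u.length + 1)` (`sval_lt`), and `N + 2 ≤ F.L n`.
The program: `FP_bexs` with `G w = chT F.D (code F.cU) (join (tor (dec Y)) zero) (node (enc z) (fst w))`,
where `snd w = node X Y`, `z = zS F.a (len X)` (`exists_zT F.ha.polyTime`), polynomial time by `UFP_subst`
(`UFP_chT`, `FPO_tor`; the position `fst w` has to be normalised, `norm`, and `H` bounds the size
of `node (enc z) (norm (fst w))` by `4 * .. + 4 * ..  + 10`); then negate: `cs (H v) tt leaf`.
-/

namespace Pool.Agent.H18.CB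

open Pool.Agent.H88.RO Pool.Agent.H88.RO.Tr Pool.Agent.H65.TS Pool.Agent.H65.NU Pool.Agent.H69.NL
open Pool.Agent.H93.BB (Orc zero)
open Pool.Agent.H93.BB.Tab (UFP_chT)

theorem Frm.exists_allT (F : Frm) : ∃ T : Tr → Tr, FP zero T ∧
    ∀ (n : ℕ) (y : List Bool), y.length = 2 ^ F.L n →
      (T (node (num n) (enc y)) ≠ leaf ↔ ∀ u, Ok F.D F.cU (tor y) (zS F.a n) u) := by
  obtain ⟨zT, hz1, hz2⟩ := exists_zT F.ha.polyTime
  have hZ : FP zero (fun w => zT (fst (snd w))) := hz1 (FP.fst' (FP.snd' FP.id'))
  have hG : FP zero (fun w => node (zT (fst (snd w))) (norm (fst w))) :=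
    FP.node' hZ (FP.norm' (FP.fst' FP.id'))
  have hH : FP zero (fun w => addU (mulU (num 4) (zT (fst (snd w))))
      (addU (mulU (num 4) (fst w)) (num 10))) :=
    FP.addU' (FP.mulU' (FP.const' _) hZ) (FP.addU' (FP.mulU' (FP.const' _) (FP.fst' FP.id'))
      (FP.const' _))
  have hs : ∀ w, size (node (zT (fst (snd w))) (norm (fst w))) ≤
      len (addU (mulU (num 4) (zT (fst (snd w)))) (addU (mulU (num 4) (fst w)) (num 10))) := by
    intro w
    have h1 := size_enc_le (zS F.a (len (fst (snd w))))
    have h2 := size_enc_le (dec (fst w))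
    rw [length_dec] at h2
    simp only [hz2, norm_eq, mulU_eq, addU_num, len_num, len_enc, size]
    omega
  have key := UFP_subst (UFP_chT F.D (code F.cU)) (Ω := fun θ => join (tor (dec θ)) zero) FPO_tor
    (FP.snd' (FP.snd' FP.id')) hG hH hs
  obtain ⟨H, hH1, hH2⟩ := FP_bexs key (M := fun v => snd v) (X := fun v => v)
    (FP.snd' FP.id') FP.id'
  refine ⟨fun v => cs (H v) tt leaf, FP.cs' hH1 (FP.const' _) FP.leaf', ?_⟩
  intro n y hy
  have h1 : ∀ m : ℕ, Pool.Agent.H93.BB.Tab.chT F.D (code F.cU)
      (join (tor (dec (snd (snd (node (enc (sc^[m] [])) (node (num n) (enc y))))))) zero)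
      (node (zT (fst (snd (node (enc (sc^[m] [])) (node (num n) (enc y))))))
        (norm (fst (node (enc (sc^[m] [])) (node (num n) (enc y)))))) = leaf ↔
      Ok F.D F.cU (tor y) (zS F.a n) (sc^[m] []) := by
    intro m
    simp only [fst_node, snd_node]
    rw [hz2, len_num, norm_eq, dec_enc, dec_enc]
    rfl
  have h2 := hH2 (node (num n) (enc y))
  simp only [snd_node, len_enc] at h2
  have h3 : cs (H (node (num n) (enc y))) tt leaf ≠ leaf ↔ H (node (num n) (enc y)) = leaf := by
    unfold cs
    split_ifs with h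
    · simp [h]
    · simp [h]
  rw [h3]
  constructor
  · intro h u
    by_contra hcon
    have h4 : u = [] ∨ u.length = nA F.D (zS F.a n) + 1 := by
      by_contra h5
      rw [not_or] at h5
      exact hcon (Ok_of_length h5.1 h5.2)
    have h5 : u.length + 1 ≤ F.L n := by
      unfold Frm.L nL
      rcases h4 with h4 | h4
      · rw [h4]
        simp only [List.length_nil]
        omega
      · omega
    have h6 : sval u < y.length := by
      have h7 := sval_lt u
      have h8 : 2 ^ (u.length + 1) ≤ 2 ^ F.L n := Nat.pow_le_pow_right (by norm_num) h5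
      rw [hy]
      omega
    have h9 : H (node (num n) (enc y)) ≠ leaf := by
      rw [h2]
      refine ⟨sval u, h6, ?_⟩
      intro h10
      have h11 := (h1 (sval u)).1 (by simpa only [fst_node, snd_node] using h10)
      rw [sc_iter_sval] at h11
      exact hcon h11
    exact h9 h
  · intro h
    by_contra hcon
    obtain ⟨m, -, h4⟩ := h2.1 hcon
    apply h4
    have h5 := (h1 m).2 (h _)
    simpa only [fst_node, snd_node] using h5

end Pool.Agent.H18.CB
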