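import Pool.Agent.H18.CB.Defs

set_option autoImplicit false

/-!
# Circuits and tables; small descriptions of circuits

PROOF of `cor_eq_tor`: `pad L q` has length `L`, so by `Computes` the circuit gives
`y.getD (val (pad L q)) false`, and `val (q ++ zeros) = val q`.

PROOF of `exists_tree`: replace every gate `(i, j)` by `(min i B, min j B)` with `B = L + C.length`:
when the gates are evaluated on an input of length `L` the list of values always has length at
most `L + C.length` before a gate is added, so entries with numbers `≥ B` are `false` before and after
(`List.getD` with default). So the new circuit has the same values (induction on `C` with a general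
list `ws`, `ws.length + C.length ≤ B`). The tree of a list of gates is
`node (node (num i) (num j)) rest`, `circOf` of it is the list; its size is at most
`C.length * (4 * B + 4) + 1` (`size_num`).

PROOF of `exists_string`: `u = rpn t`, `decode (rpn t) = t` (`decode_pad` with `0`), the length
of `rpn t` is `size t` (see `rpn_length` in `Pool.Agent.H93.BT.S0`; please prove it again here as a
private lemma).
-/

namespace Pool.Agent.H18.CB

open Pool.Agent.H88.RO Pool.Agent.H88.RO.Tr Pool.Agent.H65.TS Pool.Agent.H65.NU Pool.Agent.H69.NL
open Pool.Agent.H93.BB (Orc zero)
open Pool.Agent.H93.BB.Tab (val)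

private theorem val_zeros (q : List Bool) (k : ℕ) : val (q ++ List.replicate k false) = val q := by
  induction q with
  | nil =>
    rw [List.nil_append]
    induction k with
    | zero => rfl
    | succ k ih =>
      have h0 : val (List.replicate k false) = 0 := ih
      show (if false = true then 1 else 0) + 2 * val (List.replicate k false) = 0
      rw [h0]; rfl
  | cons b q ih => rw [List.cons_append, val, val, ih]

/-- circuit oracles and table oracles agree on short strings -/
theorem cor_eq_tor {t : Tr} {y : List Bool} {L : ℕ} (hy : y.length = 2 ^ L)
    (h : Computes (circOf t) y) {q : List Bool} (hq : q.length ≤ L) : cor t L q = tor y q := by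
  have h1 : (pad L q).length = L := by
    rw [pad, List.length_append, List.length_replicate]; omega
  have h2 := h (pad L q) (by rw [h1]; exact hy)
  rw [cor, h2, tor, pad, val_zeros]

private def treeOf : Circuit → Tr
  | [] => leaf
  | g :: C => node (node (num g.1) (num g.2)) (treeOf C)

private theorem circOf_treeOf (C : Circuit) : circOf (treeOf C) = C := by
  induction C with
  | nil => rfl
  | cons g C ih => rw [treeOf, circOf, ih, fst_node, snd_node, len_num, len_num]

private theorem vals_min (B : ℕ) : ∀ (C : Circuit) (ws : List Bool), ws.length + C.length ≤ B →
    vals (C.map (fun g => (min g.1 B, min g.2 B))) ws = vals C ws := by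
  intro C
  induction C with
  | nil => intro ws _; rfl
  | cons g C ih =>
    intro ws h
    rw [List.length_cons] at h
    have key : ∀ i : ℕ, ws.getD (min i B) false = ws.getD i false := by
      intro i
      rcases le_total i B with h1 | h1
      · rw [min_eq_left h1]
      · rw [min_eq_right h1, List.getD_eq_default _ _ (by omega),
          List.getD_eq_default _ _ (by omega)]
    rw [List.map_cons, vals, vals]
    simp only [key]
    exact ih _ (by rw [List.length_cons]; omega)

private theorem size_treeOf (B : ℕ) : ∀ C : Circuit, (∀ g ∈ C, g.1 ≤ B ∧ g.2 ≤ B) →
    size (treeOf C) ≤ C.length * (4 * B + 4) + 1 := by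
  intro C
  induction C with
  | nil => intro _; simp [treeOf, size]
  | cons g C ih =>
    intro h
    have h1 := ih (fun g' hg' => h g' (List.mem_cons_of_mem _ hg'))
    have h2 := h g List.mem_cons_self
    rw [treeOf, size, size, size_num, size_num, List.length_cons, Nat.add_mul]
    omega

/-- every circuit has an equivalent one with a small description as a tree -/
theorem exists_tree {C : Circuit} {y : List Bool} {L : ℕ} (hy : y.length = 2 ^ L)
    (h : Computes C y) : ∃ t : Tr, size t ≤ C.length * (4 * (L + C.length) + 4) + 1 ∧
      Computes (circOf t) y := by
  refine ⟨treeOf (C.map (fun g => (min g.1 (L + C.length), min g.2 (L + C.length)))), ?_, ?_⟩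
  · have h1 := size_treeOf (L + C.length)
      (C.map (fun g => (min g.1 (L + C.length), min g.2 (L + C.length)))) (by
        intro g hg
        rw [List.mem_map] at hg
        obtain ⟨g', _, rfl⟩ := hg
        exact ⟨min_le_right _ _, min_le_right _ _⟩)
    rw [List.length_map] at h1
    exact h1
  · intro x hx
    rw [circOf_treeOf]
    have hL : x.length = L := by
      rw [hy] at hx
      exact (Nat.pow_right_injective (le_refl 2) hx).symm
    have h2 : outC (C.map (fun g => (min g.1 (L + C.length), min g.2 (L + C.length)))) x =
        outC C x := by
      unfold outC
      rw [vals_min (L + C.length) C x (by omega)]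
    rw [h2]
    exact h x hx

private theorem rpn_len (t : Tr) : (rpn t).length = size t := by
  induction t with
  | leaf => rfl
  | node a b iha ihb =>
    simp only [rpn, size, List.length_append, iha, ihb, List.length_singleton]; ring

/-- the same with strings -/
theorem exists_string {C : Circuit} {y : List Bool} {L : ℕ} (hy : y.length = 2 ^ L)
    (h : Computes C y) : ∃ u : List Bool, u.length ≤ C.length * (4 * (L + C.length) + 4) + 1 ∧
      Computes (circOf (decode u)) y := by
  obtain ⟨t, h1, h2⟩ := exists_tree hy h
  refine ⟨rpn t, by rw [rpn_len]; exact h1, ?_⟩
  have h3 : decode (rpn t) = t := by simpa using decode_pad 0 t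
  rw [h3]
  exact h2

end Pool.Agent.H18.CB
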