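import Pool.Agent.H18.CB.Defs

set_option autoImplicit false

/-!
# Evaluation of circuits in polynomial time

PROOF. One step of the evaluation: on states `node t ws` (`t` the tree of the remaining gates, `ws`
the encoded list of values)
`s ↦ cs (fst s) s (node (snd (fst s)) (node (nand (look (fst (fst (fst s))) (snd s)) (look (snd (fst (fst s))) (snd s))) (snd s)))`
with `look i ws = fst (dropU i ws)` (`dropU a b` drops `len a` elements of the spine of `b`) and
`nand a b = cs a tt (cs b tt leaf)`. A gate of `t` is `fst t`, it reads the entries number
`len (fst (fst t))` and `len (snd (fst t))`. By induction on `t`: `len t` steps lead from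
`node t (enc ws)` to `node leaf (enc (vals (circOf t) ws))`; one step adds at most a constant to the
size (`FP.iterate_add`).
`pad`: `enc (pad L q) = appT (enc q) (num (L - q.length))`, as `num m = enc (List.replicate m false)`,
and `num (L - q.length) = ulen (dropU q (num L))`.
The join with `zero` and the case distinction on the first bit of the query: copy the proof of
`FPO.trie` in `Pool.Agent.H93.BB.Trie` (with `norm` to replace a tree by `enc (dec _)`).
-/

namespace Pool.Agent.H18.CB

open Pool.Agent.H88.RO Pool.Agent.H88.RO.Tr Pool.Agent.H65.TS Pool.Agent.H65.NU Pool.Agent.H69.NL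
open Pool.Agent.H93.BB (Orc zero UFP)

variable {O : List Bool → Bool}

private theorem snd_iter_enc (n : ℕ) (l : List Bool) : snd^[n] (enc l) = enc (l.drop n) := by
  induction n generalizing l with
  | zero => simp
  | succ n ih =>
    rw [Function.iterate_succ_apply]
    cases l with
    | nil =>
      have e : snd (enc []) = enc [] := rfl
      rw [e, ih]
      simp
    | cons b l =>
      have e : snd (enc (b :: l)) = enc l := rfl
      rw [e, ih]
      simp

private theorem snd_iter_num (n m : ℕ) : snd^[n] (num m) = num (m - n) := by
  induction n generalizing m with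
  | zero => simp
  | succ n ih =>
    rw [Function.iterate_succ_apply]
    cases m with
    | zero =>
      have e : snd (num 0) = num 0 := rfl
      rw [e, ih]
      congr 1
      omega
    | succ m =>
      have e : snd (num (m + 1)) = num m := rfl
      rw [e, ih]
      congr 1
      omega

private theorem num_eq_enc (m : ℕ) : num m = enc (List.replicate m false) := by
  induction m with
  | zero => rfl
  | succ m ih =>
    have e : num (m + 1) = node leaf (num m) := rfl
    rw [e, ih]
    rfl

private theorem fst_enc (l : List Bool) : fst (enc l) = bit (l.headD false) := by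
  cases l <;> rfl

/-- the entry number `len i` -/
private def lookT (i ws : Tr) : Tr := fst (dropU i ws)

private theorem lookT_enc (i : Tr) (l : List Bool) : lookT i (enc l) = bit (l.getD (len i) false) := by
  rw [lookT, dropU, snd_iter_enc, fst_enc]
  congr 1
  rw [List.headD_eq_head?_getD, List.head?_drop, List.getD_eq_getElem?_getD]

private def nandT (a b : Tr) : Tr := cs a tt (cs b tt leaf)

private theorem nandT_bit (x y : Bool) : nandT (bit x) (bit y) = bit (!(x && y)) := by
  cases x <;> cases y <;> rfl

private theorem size_nandT (a b : Tr) : size (nandT a b) ≤ 3 := by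
  unfold nandT cs
  split_ifs <;> simp [tt, size]

/-- one step of the evaluation -/
private def estep (s : Tr) : Tr :=
  cs (fst s) s (node (snd (fst s)) (node (nandT (lookT (fst (fst (fst s))) (snd s))
    (lookT (snd (fst (fst s))) (snd s))) (snd s)))

private theorem size_estep (s : Tr) : size (estep s) ≤ size s + 4 := by
  unfold estep
  by_cases h : fst s = leaf
  · rw [cs_pos _ _ h]
    omega
  · rw [cs_neg _ _ h]
    cases s with
    | leaf => simp at h
    | node a b =>
      have h1 := size_snd_le a
      have h2 := size_nandT (lookT (fst (fst a)) b) (lookT (snd (fst a)) b)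
      simp only [fst_node, snd_node, size] at h1 h2 ⊢
      omega

private theorem FP_estep : FP O estep := by
  have h1 : FP O (fun s : Tr => fst s) := FP.fst' FP.id'
  have h2 : FP O (fun s : Tr => snd s) := FP.snd' FP.id'
  unfold estep nandT lookT
  exact FP.cs' h1 FP.id' (FP.node' (FP.snd' h1) (FP.node' (FP.cs' (FP.fst' (FP.dropU'
    (FP.fst' (FP.fst' h1)) h2)) (FP.const' _) (FP.cs' (FP.fst' (FP.dropU'
    (FP.snd' (FP.fst' h1)) h2)) (FP.const' _) FP.leaf')) h2))

private theorem estep_iter (t : Tr) : ∀ l : List Bool,
    estep^[len t] (node t (enc l)) = node leaf (enc (vals (circOf t) l)) := by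
  induction t with
  | leaf => intro l; rfl
  | node g t _ ih =>
    intro l
    rw [len, Function.iterate_succ_apply]
    have e : estep (node (node g t) (enc l)) = node t (enc
        ((!(l.getD (len (fst g)) false && l.getD (len (snd g)) false)) :: l)) := by
      rw [estep, cs_neg _ _ (by simp)]
      simp only [fst_node, snd_node, lookT_enc, nandT_bit]
      rfl
    rw [e, ih]
    rfl

/-- the padded query -/
private def padT (w q : Tr) : Tr := appT (norm q) (dropU q (ulen w))

private theorem padT_eq (w q : Tr) : padT w q = enc (pad (len w) (dec q)) := by
  rw [padT, norm_eq, ulen_eq, dropU, snd_iter_num, num_eq_enc, appT_enc, pad, length_dec]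

private def corT (θ q : Tr) : Tr :=
  fst (snd (estep^[len (fst θ)] (node (fst θ) (padT (snd θ) q))))

private theorem corT_eq (θ q : Tr) : corT θ q = bit (cor (fst θ) (len (snd θ)) (dec q)) := by
  rw [corT, padT_eq, estep_iter, snd_node, fst_enc]
  rfl

private theorem FP_corT {F G : Tr → Tr} (hF : FP O F) (hG : FP O G) :
    FP O (fun v => corT (F v) (G v)) := by
  have h1 : FP O (fun v => padT (snd (F v)) (G v)) :=
    FP.appT' (FP.norm' hG) (FP.dropU' hG (FP.ulen' (FP.snd' hF)))
  exact FP.fst' (FP.snd' (FP.iterate_add FP_estep (FP.fst' hF) (FP.node' (FP.fst' hF) h1) 4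
    size_estep))

/-- The oracles computed by circuits, with the circuit and (in unary) the number of inputs as
parameters, are computable in polynomial time. -/
theorem FPO_cor : FPO zero (fun θ => join (cor (fst θ) (len (snd θ))) zero) := by
  intro F G hF hG
  have h : (fun v => bit (join (cor (fst (F v)) (len (snd (F v)))) zero (dec (G v)))) = fun v =>
      cs (G v) leaf (cs (fst (G v)) (corT (F v) (snd (G v))) leaf) := by
    funext v
    cases hq : G v with
    | leaf => simp [dec, join, bit]
    | node a b =>
      rw [cs_neg _ _ (by simp), fst_node, snd_node]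
      by_cases ha : a = leaf
      · subst ha
        rw [cs_leaf, corT_eq]
        have e : join (cor (fst (F v)) (len (snd (F v)))) zero (dec (node leaf b)) =
            cor (fst (F v)) (len (snd (F v))) (dec b) := by
          simp [dec, join]
        rw [e]
      · rw [cs_neg _ _ ha]
        have e : join (cor (fst (F v)) (len (snd (F v)))) zero (dec (node a b)) = zero (dec b) := by
          simp [dec, ha, join]
        rw [e]
        rfl
  rw [h]
  exact FP.cs' hG FP.leaf' (FP.cs' (FP.fst' hG) (FP_corT hF (FP.snd' hG)) FP.leaf')

end Pool.Agent.H18.CB
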