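import Pool.Agent.H69.NL.PiHalf
import Pool.Agent.H93.BB.Tab

set_option autoImplicit false

/-!
# Circuit lower bounds from a complete total NP search problem: definitions

Boolean circuits, truth tables as strings, tableaux of computations as truth tables.
-/

namespace Pool.Agent.H18.CB

open Pool.Agent.H88.RO Pool.Agent.H88.RO.Tr Pool.Agent.H65.TS Pool.Agent.H65.NU Pool.Agent.H69.NL
open Pool.Agent.H93.BB (Orc zero)
open Pool.Agent.H93.BB.Tab (val chT)
open Pool.Agent.H40.EL (lam)

/-! ### circuits -/

/-- A Boolean circuit, as a straight-line program of NAND gates: the gate `(i, j)` applies NAND to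
the entries number `i` and `j` of the list of all values known so far, the values of the previous
gates (newest first) followed by the inputs. -/
abbrev Circuit : Type := List (ℕ × ℕ)

/-- The list of the values of all gates, newest first, followed by the list `ws`. -/
def vals : Circuit → List Bool → List Bool
  | [], ws => ws
  | g :: C, ws => vals C ((!(ws.getD g.1 false && ws.getD g.2 false)) :: ws)

/-- The output of the circuit: the value of the last gate. -/
def outC (C : Circuit) (x : List Bool) : Bool := (vals C x).headD false

/-- The circuit computes the function with the truth table `y` of length `2 ^ L`: its output at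
every string `x` of length `L` is the entry of `y` whose number has the binary digits `x`. -/
def Computes (C : Circuit) (y : List Bool) : Prop :=
  ∀ x : List Bool, y.length = 2 ^ x.length → outC C x = y.getD (val x) false

/-- the circuit described by a tree -/
def circOf : Tr → Circuit
  | leaf => []
  | node g t => (len (fst g), len (snd g)) :: circOf t

/-! ### oracles given by circuits and tables -/

/-- fill up with zeros to the length `L` -/
def pad (L : ℕ) (q : List Bool) : List Bool := q ++ List.replicate (L - q.length) false

/-- the oracle computed by the circuit described by the tree `t`, with `L` inputs -/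
def cor (t : Tr) (L : ℕ) : Orc := fun q => outC (circOf t) (pad L q)

/-- the oracle given by the table `y` -/
def tor (y : List Bool) : Orc := fun q => y.getD (val q) false

/-! ### tableaux -/

/-- The oracle `A`, read as a tableau of a computation of the program `c` on inputs `node (enc z) Y`,
passes the local test at the position `u`; `D` is a parameter for the number of address bits. -/
def Ok (D : ℕ) (c : Prog) (A : Orc) (z u : List Bool) : Prop :=
  chT D (code c) (join A zero) (node (enc z) (enc u)) = leaf

/-- the number of address bits -/
def nA (D : ℕ) (z : List Bool) : ℕ := D * (z.length + 1)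

/-- the number of variables of tableaux -/
def nL (D : ℕ) (z : List Bool) : ℕ := 2 * nA D z + 10

/-! ### the lengths -/

/-- the marked lengths: powers of two -/
def dP (n : ℕ) : Bool := decide (2 ^ Nat.log 2 n = n)

/-- the short string which describes the length `n = 2 ^ k`: `1^k 0 1^((k + 2) a(n))` -/
def zS (a : ℕ → ℕ) (n : ℕ) : List Bool :=
  List.replicate (Nat.log 2 n) true ++ false :: ones ((Nat.log 2 n + 2) * a n)

/-- The frame: an exponent and a universal program; `RU` is the universal relation
of `Pool.Agent.H69.NL.Univ`. -/
structure Frm where
  /-- the exponent -/
  a : ℕ → ℕ
  ha : Slow zero a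
  /-- the universal program -/
  cU : Prog
  /-- a constant for its running time -/
  C : ℕ
  sound : ∀ (n : ℕ) (Y v : Tr) (t : ℕ), dP n = true → v ≠ leaf →
    Eval zero cU (node (enc (zS a n)) Y) v t → ∃ y, RU zero dP (ones n) y = true
  complete : ∀ (n : ℕ) (y : List Bool), dP n = true → y.length ≤ (n + 2) ^ a n →
    RU zero dP (ones n) y = true → ∃ (Y v : Tr) (t : ℕ), v ≠ leaf ∧
      Eval zero cU (node (enc (zS a n)) Y) v t ∧ t ≤ 2 ^ (C * (zS a n).length + C)

namespace Frm

variable (F : Frm)

/-- the parameter of the tableaux -/
def D : ℕ := 2 * F.C + size (code F.cU) + 4

/-- the number of variables of the tableaux for the length `n` -/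
def L (n : ℕ) : ℕ := nL F.D (zS F.a n)

/-- the length of the instances of the problem `S2` which belongs to `n` -/
def M (n : ℕ) : ℕ := 2 ^ ((zS F.a n).length + 1)

/-- `v` is a position where the circuit described by `u` fails the test, where the argument is
the pair `(1^n, u)` -/
noncomputable def Q (x v : List Bool) : Bool :=
  @decide (¬ Ok F.D F.cU (cor (decode (un2 x)) (F.L (un1 x).length)) (zS F.a (un1 x).length) v)
    (Classical.propDecidable _)

end Frm

/-- unpack a string from a table -/
def unpack (y : List Bool) : List Bool := (prs y).2.take (prs y).1

end Pool.Agent.H18.CB
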