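import Pool.Agent.H18.CB.Defs

set_option autoImplicit false

/-!
# Exponential time with an oracle in NP: definitions
-/

namespace Pool.Agent.H18.CB

open Pool.Agent.H88.RO Pool.Agent.H88.RO.Tr Pool.Agent.H65.TS Pool.Agent.H65.NU Pool.Agent.H69.NL
open Pool.Agent.H93.BB (Orc zero)

/-- The set `K` is in `E^NP`: it is decided in time `2 ^ O(n)` by a program with an oracle in
NP. -/
def InENP (K : Set (List Bool)) : Prop :=
  ∃ (A : List Bool → Bool) (c : Prog) (k : ℕ), InNP zero {w | A w = true} ∧
    ∀ x : List Bool, ∃ (b : Bool) (t : ℕ), (b = true ↔ x ∈ K) ∧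
      t ≤ 2 ^ (k * x.length + k) ∧ Eval A c (enc x) (bit b) t

/-- prefix search with the oracle `A`, number of steps and current prefix -/
def srch (A : Orc) (N : ℕ) : ℕ → List Bool → List Bool
  | 0, p => p
  | T + 1, p => srch A N T (p ++ [!(A (pr (ones N) (p ++ [false])))])

end Pool.Agent.H18.CB
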