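import Pool.Agent.H18.CB.ENP

set_option autoImplicit false

/-!
# Prefix search

PROOF of `exists_ext`: `A w = decide (∃ s, s.length ≤ S.p.eval (un1 w).length ∧ S.IsSol (un1 w) (un2 w ++ s))`
(classical). In NP (`InNP` in `Pool.Agent.H65.TS.Base`): the relation `S.IsSol (un1 w) (un2 w ++ s)` is
polynomial time (`qT S.R PS`, `exists_polyT S.p`, `FP.qT'`, `qT_spec`, `un1T`, `un2T`, `appT`, `polyTimeRel_of_FP`; see
`Dat.exists_coreT` in `Pool.Agent.H69.NL.Ref`). For `w = pr (ones N) p`: a solution `p ++ s` has length
at most `S.p.eval N`, so `s` is short enough.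
PROOF of `srch_sol`: by induction on `T`, for all `p` with `p.length + T = l` which extend to a solution:
`srch A N T p` is a solution. `T = 0`: `p ++ s` is a solution of length `l = p.length`, so `s = []`.
`T + 1`: `s` is not empty; if `A (pr (ones N) (p ++ [false]))` is true then `p ++ [false]` extends,
otherwise the first entry of `s` is `true` and `p ++ [true]` extends.
-/

namespace Pool.Agent.H18.CB

open Pool.Agent.H88.RO Pool.Agent.H88.RO.Tr Pool.Agent.H65.TS Pool.Agent.H65.NU Pool.Agent.H69.NL
open Pool.Agent.H93.BB (Orc zero)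

theorem exists_ext (S : TFNP zero) : ∃ A : List Bool → Bool, InNP zero {w | A w = true} ∧
    ∀ (N : ℕ) (p : List Bool), A (pr (ones N) p) = true ↔
      ∃ s : List Bool, S.IsSol (ones N) (p ++ s) := by
  classical
  obtain ⟨PS, h1, h2⟩ := exists_polyT S.p
  refine ⟨fun w => decide (∃ s : List Bool, S.IsSol (un1 w) (un2 w ++ s)), ?_, ?_⟩
  · refine ⟨fun x y => decide (S.IsSol (un1 x) (un2 x ++ y)), S.p, ?_, ?_⟩
    · have h3 : FP zero (fun v => fst v) := FP.fst' FP.id'
      have h4 : FP zero (fun v => snd v) := FP.snd' FP.id'
      refine polyTimeRel_of_FP (F := fun v => qT S.R PS (un1T (fst v)) (appT (un2T (fst v)) (snd v)))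
        (FP.qT' S.polyTime (h2 zero) (FP.un1T' h3) (FP.appT' (FP.un2T' h3) h4)) ?_
      intro x y
      rw [qT_spec h1, decide_eq_true_eq, fst_node, snd_node, un1T_enc, un2T_enc, appT_enc, dec_enc, dec_enc]
      rfl
    · intro x
      simp only [Set.mem_ofPred_eq, decide_eq_true_eq]
      constructor
      · rintro ⟨s, hs⟩
        refine ⟨s, ?_, hs⟩
        have h3 := hs.1
        have h4 := poly_mono S.p (un1_length x)
        rw [List.length_append] at h3
        omega
      · rintro ⟨s, -, hs⟩
        exact ⟨s, hs⟩
  · intro N p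
    rw [decide_eq_true_eq, un1_pr, un2_pr]

theorem srch_sol {S : TFNP zero} {A : Orc} {N l : ℕ}
    (hA : ∀ p : List Bool, A (pr (ones N) p) = true ↔ ∃ s : List Bool, S.IsSol (ones N) (p ++ s))
    (hl : ∀ y : List Bool, S.IsSol (ones N) y → y.length = l) :
    S.IsSol (ones N) (srch A N l []) := by
  have key : ∀ (T : ℕ) (p : List Bool), p.length + T = l → (∃ s : List Bool, S.IsSol (ones N) (p ++ s)) →
      S.IsSol (ones N) (srch A N T p) := by
    intro T
    induction T with
    | zero =>
      rintro p hp ⟨s, hs⟩
      have h1 := hl _ hs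
      rw [List.length_append] at h1
      have h2 : s = [] := List.length_eq_zero_iff.1 (by omega)
      rw [h2, List.append_nil] at hs
      exact hs
    | succ T ih =>
      rintro p hp ⟨s, hs⟩
      rw [srch]
      refine ih _ (by rw [List.length_append, List.length_singleton]; omega) ?_
      by_cases h : A (pr (ones N) (p ++ [false])) = true
      · rw [h]
        exact (hA _).1 h
      · rw [Bool.not_eq_true] at h
        rw [h]
        cases s with
        | nil =>
          have h1 := hl _ hs
          rw [List.append_nil] at h1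
          omega
        | cons b s =>
          cases b with
          | false =>
            have h1 : A (pr (ones N) (p ++ [false])) = true := (hA _).2 ⟨s, by simpa using hs⟩
            rw [h] at h1
            exact absurd h1 Bool.false_ne_true
          | true => exact ⟨s, by simpa using hs⟩
  obtain ⟨y, hy⟩ := S.total (ones N)
  exact key l [] (by simp) ⟨y, hy⟩

end Pool.Agent.H18.CB
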