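import Pool.Agent.H18.CB.ENP
import Pool.Agent.H18.CB.TorF
import Pool.Agent.H93.BT.W

set_option autoImplicit false

/-!
# The exponential time program with an oracle

PROOF. The polynomial time part is a uniform program (`UFP`, `Pool.Agent.H93.BB.UFP`) on inputs
`node (enc x) (node (num N) (num T))`: iterate, `len T` times, the step
`s ↦ node (fst s) (node (cs (query (prT (onesPre (fst s) leaf) (revN (node leaf (snd s))))) tt leaf) (snd s))`
on states `node (num N) (reversed prefix)` (`UFP.query'`, `UFP.pure'`, `UFP.iterate_add` with a constant: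
only one bit is added in front): the state after `T` steps is `node (num N) (enc (srch A N T []).reverse)`
(induction with a general prefix; `cs q tt leaf` is `bit (!b)` if `q = bit b`, and
`srch` puts `!(A ..)` at the end). Then `revN` gives `enc (srch A N T [])`, and the bit of the table at the
address `x` is `bit (tor (dec θ) x)`, oracle free polynomial time by `FPO_tor` (ask the oracle
`join (tor (dec θ)) zero` at `false :: x`), `UFP.pure'`.
The expansion: a program without oracle computes from `enc x` the tree
`node (enc x) (node (num (2 ^ ((x.length - 10) / k))) (num (2 ^ x.length)))` in time polynomial in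
`2 ^ x.length` and the size: unary division by the constant `k` (as `mdT` in `Pool.Agent.H40.EL.Arith2`: states
`node r q`, subtract `k` from `r` while possible), `exists_pow2` (`Pool.Agent.H93.BT.W`) twice; with the
oracle `A` use `strip_eval`. The composition of the two programs has time at most a polynomial
in `2 ^ x.length`, so at most `2 ^ (K * x.length + K)` by `poly_pow2` (see `exists_search` and `exists_W` in
`Pool.Agent.H93.BT.W` for the pattern).
-/

namespace Pool.Agent.H18.CB

open Pool.Agent.H88.RO Pool.Agent.H88.RO.Tr Pool.Agent.H65.TS Pool.Agent.H65.NU Pool.Agent.H69.NL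
open Pool.Agent.H93.BB (Orc zero)

open Pool.Agent.H93.BB (UFP strip strip_eval exists_pow2 poly_pow2)

/-! ### unary division by a constant -/

/-- one step of the division by `k`; states are `node r q` -/
private def dstep (k : ℕ) (s : Tr) : Tr :=
  cs (dropU (node leaf (fst s)) (num k)) (node leaf (node leaf (snd s)))
    (node (node leaf (fst s)) (snd s))

/-- `len v / k` in unary -/
private def dvT (k : ℕ) (v : Tr) : Tr := snd ((dstep k)^[len v] (node leaf leaf))

private theorem dvT_eq (k : ℕ) (hk : k ≠ 0) (v : Tr) : dvT k v = num (len v / k) := by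
  have key : ∀ n, (dstep k)^[n] (node leaf leaf) = node (num (n % k)) (num (n / k)) := by
    intro n
    induction n with
    | zero => simp [num]
    | succ n ih =>
      rw [Function.iterate_succ_apply', ih]
      have h0 : 0 < k := Nat.pos_of_ne_zero hk
      have h1 := Nat.mod_lt n h0
      have h2 := Nat.div_add_mod n k
      unfold dstep
      rw [fst_node, snd_node]
      by_cases h : n % k + 1 = k
      · have h3 : n + 1 = k * (n / k + 1) := by
          rw [mul_add, mul_one]
          omega
        rw [cs_pos _ _ (by rw [dropU_eq_leaf]; simp only [len, len_num]; omega)]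
        rw [h3, Nat.mul_mod_right, Nat.mul_div_cancel_left _ h0]
        rfl
      · have h3 : n + 1 = (n % k + 1) + k * (n / k) := by omega
        rw [cs_neg _ _ (by rw [ne_eq, dropU_eq_leaf]; simp only [len, len_num]; omega)]
        have h4 : (n + 1) % k = n % k + 1 := by
          conv_lhs => rw [h3]
          rw [Nat.add_mul_mod_self_left, Nat.mod_eq_of_lt (by omega)]
        have h5 : (n + 1) / k = n / k := by
          conv_lhs => rw [h3]
          rw [Nat.add_mul_div_left _ _ h0, Nat.div_eq_of_lt (by omega), zero_add]
        rw [h4, h5]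
        rfl
  rw [dvT, key, snd_node]

private theorem size_pair (x : Tr) : size (fst x) + size (snd x) ≤ size x + 1 := by
  cases x with
  | leaf => simp [size]
  | node a b => simp only [fst_node, snd_node, size]; omega

private theorem FP_dvT (k : ℕ) {F : Tr → Tr} (hF : FP zero F) : FP zero (fun v => dvT k (F v)) := by
  have hd : FP zero (dstep k) := by
    have h1 : FP zero (fun v => fst v) := FP.fst' FP.id'
    have h2 : FP zero (fun v => snd v) := FP.snd' FP.id'
    have h3 := FP.cs' (FP.dropU' (FP.node' FP.leaf' h1) (FP.const' (O := zero) (num k)))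
      (FP.node' FP.leaf' (FP.node' FP.leaf' h2)) (FP.node' (FP.node' FP.leaf' h1) h2)
    exact h3
  refine FP.snd' (FP.iterate_add hd hF (FP.const' _) 6 (fun x => ?_))
  have h1 := size_pair x
  have h2 := size_pos (fst x)
  unfold dstep cs
  split_ifs <;> simp only [size] <;> omega

/-- the exponent -/
private def exT (k : ℕ) (v : Tr) : Tr := if k = 0 then leaf else dvT k (dropU (num 10) v)

private theorem FP_exT (k : ℕ) : FP zero (exT k) := by
  unfold exT
  by_cases hk : k = 0
  · simp only [hk, if_true]
    exact FP.leaf'
  · simp only [hk, if_false]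
    exact FP_dvT k (FP.dropU' (FP.const' _) FP.id')

private theorem exT_eq (k : ℕ) (v : Tr) : exT k v = num ((len v - 10) / k) := by
  unfold exT
  by_cases hk : k = 0
  · rw [if_pos hk, hk, Nat.div_zero]
    rfl
  · rw [if_neg hk, dvT_eq k hk, dropU, len_snd_iter, len_num]

/-! ### the search -/

/-- one step; states are `node (num N) (reversed prefix)` -/
private def sstep (O : Orc) (s : Tr) : Tr :=
  node (fst s) (node (cs (bit (O (dec (prT (onesPre (fst s) leaf) (revN (node leaf (snd s)))))))
    tt leaf) (snd s))

private theorem sstep_eq (O : Orc) (N : ℕ) (p : List Bool) :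
    sstep O (node (num N) (enc p.reverse)) =
      node (num N) (enc (p ++ [!(O (pr (ones N) (p ++ [false])))]).reverse) := by
  unfold sstep
  rw [fst_node, snd_node]
  have e1 : onesPre (num N) leaf = enc (ones N) := by
    have h1 := onesPre_enc (num N) []
    rw [len_num, List.append_nil] at h1
    exact h1
  have e2 : revN (node leaf (enc p.reverse)) = enc (p ++ [false]) := by
    have e3 : node leaf (enc p.reverse) = enc (false :: p.reverse) := rfl
    rw [e3, revN_eq, dec_enc, List.reverse_cons, List.reverse_reverse]
  rw [e1, e2, prT_enc, dec_enc, List.reverse_append]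
  cases O (pr (ones N) (p ++ [false]))
  · rfl
  · rfl

private theorem sstep_iter (O : Orc) (N T : ℕ) (p : List Bool) :
    (sstep O)^[T] (node (num N) (enc p.reverse)) = node (num N) (enc (srch O N T p).reverse) := by
  induction T generalizing p with
  | zero => rfl
  | succ T ih => rw [Function.iterate_succ_apply, sstep_eq, ih]; rfl

private theorem UFP_sstep : UFP sstep := by
  have h1 : FP zero (fun v => fst v) := FP.fst' FP.id'
  have h2 : FP zero (fun v => snd v) := FP.snd' FP.id'
  have h3 : FP zero (fun s => prT (onesPre (fst s) leaf) (revN (node leaf (snd s)))) :=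
    FP.prT' (FP.onesPre' h1 FP.leaf') (FP.revN' (FP.node' FP.leaf' h2))
  have h4 : UFP (fun O s => bit (O (dec (prT (onesPre (fst s) leaf)
      (revN (node leaf (snd s))))))) := UFP.query' (UFP.pure h3)
  exact UFP.node' (UFP.pure h1) (UFP.node' (UFP.cs' h4 (UFP.const' tt) UFP.leaf') (UFP.pure h2))

/-- the table, from `node X (node (num N) (num T))` -/
private def tabT (O : Orc) (u : Tr) : Tr :=
  revN (snd ((sstep O)^[len (snd (snd u))] (node (fst (snd u)) leaf)))

private theorem tabT_eq (O : Orc) (X : Tr) (N T : ℕ) :
    tabT O (node X (node (num N) (num T))) = enc (srch O N T []) := by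
  unfold tabT
  simp only [fst_node, snd_node, len_num]
  have h1 := sstep_iter O N T []
  have e1 : (enc ([] : List Bool).reverse) = leaf := rfl
  rw [e1] at h1
  rw [h1, snd_node, revN_eq, dec_enc, List.reverse_reverse]

private theorem UFP_tabT : UFP tabT := by
  have h1 : FP zero (fun v => fst (snd v)) := FP.fst' (FP.snd' FP.id')
  have h2 : FP zero (fun v => snd (snd v)) := FP.snd' (FP.snd' FP.id')
  have hr : FP zero (fun v => revN v) := FP.revN' FP.id'
  refine UFP.pure' (F := fun v => revN v) hr (UFP.snd' (UFP.iterate_add UFP_sstep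
    (N := fun _ u => snd (snd u)) (X := fun _ u => node (fst (snd u)) leaf)
    (UFP.pure h2) (UFP.pure (FP.node' h1 FP.leaf')) 10 (fun O x => ?_)))
  have h3 := size_pair x
  have h4 : size (cs (bit (O (dec (prT (onesPre (fst x) leaf) (revN (node leaf (snd x)))))))
      tt leaf) ≤ 3 := by
    unfold cs
    split_ifs
    · simp [tt, size]
    · simp [size]
  unfold sstep
  simp only [size]
  omega

/-- look-up of `X` in the table -/
private def lkT (w : Tr) : Tr := bit (tor (dec (fst w)) (dec (snd w)))

private theorem FP_lkT : FP zero lkT := by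
  have h1 : FP zero (fun v => fst v) := FP.fst' FP.id'
  have h2 : FP zero (fun v => node leaf (snd v)) := FP.node' FP.leaf' (FP.snd' FP.id')
  have h3 := FPO_tor h1 h2
  have h4 : (fun v => bit (join (tor (dec (fst v))) zero (dec (node leaf (snd v))))) = lkT := by
    funext v
    have e : dec (node leaf (snd v)) = false :: dec (snd v) := by
      simp [dec]
    rw [e]
    rfl
  rw [← h4]
  exact h3

/-- the polynomial time part -/
private def enT (O : Orc) (u : Tr) : Tr := lkT (node (tabT O u) (fst u))

private theorem UFP_enT : UFP enT :=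
  UFP.pure' (F := lkT) FP_lkT (UFP.node' UFP_tabT (UFP.fst' UFP.id'))

private theorem enT_eq (O : Orc) (x : List Bool) (N T : ℕ) :
    enT O (node (enc x) (node (num N) (num T))) = bit (tor (srch O N T []) x) := by
  unfold enT lkT
  rw [tabT_eq, fst_node, snd_node, fst_node, dec_enc, dec_enc]

theorem exists_enp (A : Orc) (k : ℕ) : ∃ (c : Prog) (K : ℕ), ∀ x : List Bool, ∃ t : ℕ,
    t ≤ 2 ^ (K * x.length + K) ∧ Eval A c (enc x)
      (bit (tor (srch A (2 ^ ((x.length - 10) / k)) (2 ^ x.length) []) x)) t := by
  obtain ⟨cV, qV, hV⟩ := UFP_enT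
  obtain ⟨cP, qP, hP⟩ := exists_pow2
  obtain ⟨cd, qd, hd⟩ := FP_exT k
  obtain ⟨C, hC⟩ := poly_pow2 (qV.comp (10 * Polynomial.X + 10) + qP.comp (10 * Polynomial.X + 10)
    + qP.comp (10 * Polynomial.X + 10) + qd.comp (10 * Polynomial.X + 10) + 50 * Polynomial.X + 50)
  refine ⟨Prog.comp cV (Prog.pair Prog.id (Prog.pair (Prog.comp (strip cP) (strip cd))
    (strip cP))), C, fun x => ?_⟩
  obtain ⟨t1, ht1, he1⟩ := hd (enc x)
  rw [exT_eq, len_enc] at he1
  obtain ⟨t2, ht2, he2⟩ := hP (num ((x.length - 10) / k))
  obtain ⟨t3, ht3, he3⟩ := hP (enc x)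
  rw [len_num] at ht2 he2
  rw [len_enc] at ht3 he3
  obtain ⟨t4, ht4, he4⟩ := hV A (node (enc x) (node (num (2 ^ ((x.length - 10) / k)))
    (num (2 ^ x.length))))
  rw [enT_eq] at he4
  have he := Eval.comp (Eval.pair (Eval.id (enc x)) (Eval.pair (Eval.comp (strip_eval A he1)
    (strip_eval A he2)) (strip_eval A he3))) he4
  refine ⟨_, ?_, he⟩
  refine le_trans ?_ (hC x.length)
  simp only [Polynomial.eval_add, Polynomial.eval_mul, Polynomial.eval_comp, Polynomial.eval_X,
    Polynomial.eval_ofNat]
  have hn : x.length ≤ 2 ^ x.length := Nat.lt_two_pow_self.le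
  have hd1 : (x.length - 10) / k ≤ x.length := (Nat.div_le_self _ _).trans (Nat.sub_le _ _)
  have hd2 : 2 ^ ((x.length - 10) / k) ≤ 2 ^ x.length := Nat.pow_le_pow_right (by norm_num) hd1
  have hs := size_enc_le x
  simp only [size, size_num] at ht4 ht2 ⊢
  generalize 2 ^ ((x.length - 10) / k) = p1 at *
  generalize 2 ^ x.length = p2 at *
  have b1 : qd.eval (size (enc x)) ≤ qd.eval (10 * p2 + 10) := poly_mono _ (by omega)
  have b2 : qP.eval (2 * ((x.length - 10) / k) + 1 + p1) ≤ qP.eval (10 * p2 + 10) :=
    poly_mono _ (by omega)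
  have b3 : qP.eval (size (enc x) + p2) ≤ qP.eval (10 * p2 + 10) := poly_mono _ (by omega)
  have b4 : qV.eval (size (enc x) + (2 * p1 + 1 + (2 * p2 + 1) + 1) + 1) ≤
      qV.eval (10 * p2 + 10) := poly_mono _ (by omega)
  omega

end Pool.Agent.H18.CB
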