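import Pool.Agent.H18.CB.Main
import Pool.Agent.H18.CB.EnpA
import Pool.Agent.H18.CB.EnpB
import Pool.Agent.H69.NL.Ex

set_option autoImplicit false

/-!
# The final form
-/

namespace Pool.Agent.H18.CB

open Pool.Agent.H88.RO Pool.Agent.H88.RO.Tr Pool.Agent.H65.TS Pool.Agent.H65.NU Pool.Agent.H69.NL
open Pool.Agent.H93.BB (Orc zero)
open Pool.Agent.H93.BB.Tab (val)
open Pool.Agent.H40.EL (lam lgT lgT_eq FP.lgT' lamT lamT_eq FP.lamT')

/-- the exponent `lam (α (log n))` is slow -/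
theorem slow_comp {α : ℕ → ℕ} (hα : Slow zero α) :
    Slow zero (fun n => lam (α (Nat.log 2 n))) where
  mono := by
    intro m n h
    show lam (α (Nat.log 2 m)) ≤ lam (α (Nat.log 2 n))
    unfold lam
    exact Nat.log_mono_right (Nat.log_mono_right
      (Nat.add_le_add_right (hα.mono (Nat.log_mono_right h)) 2))
  unbounded := by
    intro k
    obtain ⟨M, hM⟩ := lam_large k
    obtain ⟨n, hn⟩ := hα.unbounded M
    refine ⟨2 ^ n, hM _ ?_⟩
    rw [Nat.log_pow (by norm_num)]
    exact hn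
  polyTime := by
    refine polyTimeFun_of_FP
      (F := fun v => onesPre (lamT (enc (ones (α (dec (lgT v)).length)))) leaf)
      (FP.onesPre' (FP.lamT' (FP.fn hα.polyTime (FP.lgT' FP.id'))) FP.leaf') (fun x => ?_)
    rw [onesPre_leaf, lamT_eq, len_num, len_enc, ones_length, length_dec, lgT_eq, len_num, len_enc]
    rfl

/-- A complete total NP search problem gives a total NP search problem with hard solutions. -/
theorem hard_solutions {T : TFNP zero} (hT : T.IsComplete) {α : ℕ → ℕ} (hα : Slow zero α) :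
    ∃ (S : TFNP zero) (k : ℕ), 0 < k ∧ ∀ B : ℕ, ∃ m, B ≤ m ∧ ∀ y : List Bool,
      S.IsSol (ones (2 ^ m)) y → y.length = 2 ^ (k * m + 10) ∧ ∀ C : Circuit, Computes C y →
        2 ^ (k * m + 10) < C.length ^ α (k * m + 10) := by
  obtain ⟨F, hF⟩ := exists_Frm (slow_comp hα)
  obtain ⟨S, hS⟩ := F.main α hα.mono (fun n => by rw [hF]) T hT
  refine ⟨S, 2 * F.D, ?_, hS⟩
  unfold Frm.D
  omega

/-- If the solutions are truth tables, a set in `E^NP` contains one of them at each length. -/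
theorem exists_InENP (S : TFNP zero) {k : ℕ} (hk : 0 < k) : ∃ K : Set (List Bool), InENP K ∧
    ∀ m, (∀ y : List Bool, S.IsSol (ones (2 ^ m)) y → y.length = 2 ^ (k * m + 10)) →
      ∃ y : List Bool, S.IsSol (ones (2 ^ m)) y ∧
        ∀ x : List Bool, x.length = k * m + 10 → (y.getD (val x) false = true ↔ x ∈ K) := by
  classical
  obtain ⟨A, hA1, hA2⟩ := exists_ext S
  obtain ⟨c, K, hc⟩ := exists_enp A k
  refine ⟨{x | tor (srch A (2 ^ ((x.length - 10) / k)) (2 ^ x.length) []) x = true},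
    ⟨A, c, K, hA1, fun x => ?_⟩, fun m hm => ?_⟩
  · obtain ⟨t, ht1, ht2⟩ := hc x
    exact ⟨_, t, Iff.rfl, ht1, ht2⟩
  · refine ⟨srch A (2 ^ m) (2 ^ (k * m + 10)) [], srch_sol (hA2 (2 ^ m)) hm, fun x hx => ?_⟩
    have e : (x.length - 10) / k = m := by
      rw [hx, Nat.add_sub_cancel, Nat.mul_div_cancel_left m hk]
    show _ ↔ tor (srch A (2 ^ ((x.length - 10) / k)) (2 ^ x.length) []) x = true
    rw [e, hx]
    rfl

end Pool.Agent.H18.CB
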