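import Pool.Agent.H18.CB.Uni

set_option autoImplicit false

/-!
# Existence of the frame; the marked lengths

PROOF of `polyTime_dP`: `polyTimeFun_of_FP` with the program `p2T` (test for powers of two,
`Pool.Agent.H40.EL.Arith`, `p2T_spec`, `FP.p2T'`), normalised to `enc [b]` = `node (bit b) leaf`; `dP n = true`
iff `n` is a power of two (`Nat.log_pow`). `marks_dP`: `n = 2 ^ k ≥ k`.
PROOF of `exists_Frm`: take `cU`, `q` from `exists_cU polyTime_dP`.
`sound`: at `z = zS a n`, `(prs z).1 = Nat.log 2 n` (`prs_ones`), so `2 ^ (prs z).1 = n` by `dP n = true`; evaluation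
is deterministic (`eval_det` in `Pool.Agent.H93.BT.W`), so `v = bit (RU zero dP (ones n) (dec Y))`, and
`v ≠ leaf` gives `RU = true` with `y = dec Y`.
`complete`: `Y = enc y`, `v = bit true`, and the time is at most
`q (size (node (enc z) (enc y)) + n)`; with `m = z.length` we have `n ≤ 2 ^ m`, `m ≤ 2 ^ m` and
`y.length ≤ (n + 2) ^ a n ≤ 2 ^ ((Nat.log 2 n + 2) * a n) ≤ 2 ^ m` (as `n + 2 ≤ 2 ^ (log n + 2)`), so the
argument of `q` is at most `20 * 2 ^ m` (`size_enc_le`), and the polynomial `q (20 X)` at `2 ^ m` is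
at most `2 ^ (C * m + C)` by `poly_pow2` (`Pool.Agent.H93.BT.W`); `C` does not depend on `n`.
-/

namespace Pool.Agent.H18.CB

open Pool.Agent.H88.RO Pool.Agent.H88.RO.Tr Pool.Agent.H65.TS Pool.Agent.H65.NU Pool.Agent.H69.NL
open Pool.Agent.H93.BB (Orc zero poly_pow2)

private theorem prs_zS (a : ℕ → ℕ) (n : ℕ) : (prs (zS a n)).1 = Nat.log 2 n := by
  rw [zS, prs_ones]

theorem polyTime_dP : PolyTimeFun zero (fun x => [dP x.length]) := by
  refine polyTimeFun_of_FP (F := fun v => node (cs (Pool.Agent.H40.EL.p2T v) leaf tt) leaf)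
    (FP.node' (FP.cs' (Pool.Agent.H40.EL.FP.p2T' FP.id') FP.leaf' (FP.const' _)) FP.leaf')
    (fun x => ?_)
  show node (cs (Pool.Agent.H40.EL.p2T (enc x)) leaf tt) leaf = node (bit (dP x.length)) leaf
  have key : Pool.Agent.H40.EL.p2T (enc x) ≠ leaf ↔ dP x.length = true := by
    rw [Pool.Agent.H40.EL.p2T_spec, len_enc, dP, decide_eq_true_eq]
    constructor
    · rintro ⟨i, hi⟩
      rw [hi, Nat.log_pow (by norm_num)]
    · intro h
      exact ⟨_, h.symm⟩
  by_cases h : dP x.length = true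
  · rw [cs_neg _ _ (key.mpr h), h]
    rfl
  · rw [cs_pos _ _ (by
      by_contra hcon
      exact h (key.mp hcon))]
    rw [Bool.not_eq_true] at h
    rw [h]
    rfl

theorem marks_dP : Marks zero dP := by
  refine ⟨fun k => ⟨2 ^ k, Nat.lt_two_pow_self.le, ?_⟩, polyTime_dP⟩
  rw [dP, decide_eq_true_eq, Nat.log_pow (by norm_num)]

theorem exists_Frm {a : ℕ → ℕ} (ha : Slow zero a) : ∃ F : Frm, F.a = a := by
  obtain ⟨cU, q, hU⟩ := exists_cU polyTime_dP
  obtain ⟨C, hC⟩ := poly_pow2 (q.comp (20 * Polynomial.X))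
  refine ⟨{ a := a, ha := ha, cU := cU, C := C, sound := ?_, complete := ?_ }, rfl⟩
  · intro n Y v t hn hv he
    obtain ⟨t', _, he'⟩ := hU (zS a n) Y
    have h1 := Pool.Agent.H93.BB.eval_det he he'
    rw [prs_zS] at h1
    have h2 : 2 ^ Nat.log 2 n = n := by
      rw [dP, decide_eq_true_eq] at hn
      exact hn
    rw [h2] at h1
    refine ⟨dec Y, ?_⟩
    by_contra h3
    rw [Bool.not_eq_true] at h3
    rw [h3] at h1
    exact hv h1
  · intro n y hn hy hR
    have h2 : 2 ^ Nat.log 2 n = n := by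
      rw [dP, decide_eq_true_eq] at hn
      exact hn
    obtain ⟨t', ht', he'⟩ := hU (zS a n) (enc y)
    rw [prs_zS, h2, dec_enc, hR] at he'
    rw [prs_zS, h2] at ht'
    refine ⟨enc y, bit true, t', by simp [bit], he', ht'.trans ?_⟩
    have hC' := hC (zS a n).length
    rw [Polynomial.eval_comp] at hC'
    refine le_trans (poly_mono _ ?_) hC'
    simp only [Polynomial.eval_mul, Polynomial.eval_X, Polynomial.eval_ofNat]
    have hlen : (zS a n).length = Nat.log 2 n + 1 + (Nat.log 2 n + 2) * a n := by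
      simp only [zS, List.length_append, List.length_replicate, List.length_cons, ones_length]
      omega
    have b1 : y.length ≤ 2 ^ (zS a n).length := by
      have c1 : n < 2 ^ (Nat.log 2 n + 1) := Nat.lt_pow_succ_log_self (by norm_num) n
      have c2 : n + 2 ≤ 2 ^ (Nat.log 2 n + 2) := by
        have e : 2 ^ (Nat.log 2 n + 2) = 2 * 2 ^ (Nat.log 2 n + 1) := by
          rw [pow_succ 2 (Nat.log 2 n + 1)]; ring
        have c3 : 1 ≤ 2 ^ (Nat.log 2 n + 1) := Nat.one_le_two_pow
        have c4 : 2 ≤ 2 ^ (Nat.log 2 n + 1) := by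
          rw [pow_succ]
          have : 1 ≤ 2 ^ Nat.log 2 n := Nat.one_le_two_pow
          omega
        omega
      calc y.length ≤ (n + 2) ^ a n := hy
        _ ≤ (2 ^ (Nat.log 2 n + 2)) ^ a n := Nat.pow_le_pow_left c2 _
        _ = 2 ^ ((Nat.log 2 n + 2) * a n) := by rw [← pow_mul]
        _ ≤ 2 ^ (zS a n).length := Nat.pow_le_pow_right (by norm_num) (by rw [hlen]; omega)
    have b2 : n ≤ 2 ^ (zS a n).length := by
      have c1 : n < 2 ^ (Nat.log 2 n + 1) := Nat.lt_pow_succ_log_self (by norm_num) n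
      exact c1.le.trans (Nat.pow_le_pow_right (by norm_num) (by rw [hlen]; omega))
    have b3 : (zS a n).length < 2 ^ (zS a n).length := Nat.lt_two_pow_self
    have b4 := size_enc_le (zS a n)
    have b5 := size_enc_le y
    simp only [size]
    generalize 2 ^ (zS a n).length = p at *
    omega

end Pool.Agent.H18.CB
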