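import Pool.Agent.H18.CB.ZT
import Pool.Agent.H18.CB.Subst
import Pool.Agent.H18.CB.CorF
import Pool.Agent.H18.CB.Loc

set_option autoImplicit false

/-!
# The relation of the problem: find a position where a circuit fails the test

PROOF of `polyTime_Q`: `polyTimeRel_of_FP` with the negation (`cs _ leaf tt` reversed: the test is
`≠ leaf` iff `¬ Ok`, so no negation is needed) of
`fun v => chT F.D (code F.cU) (join (cor t L) zero) (node (enc z) (snd v))`, `t = decodeT (un2T (fst v))`,
`L` in unary from `z` (`F.L n = nL F.D z = 2 * (F.D * (z.length + 1)) + 10`: `mulU`, `addU`), `z` from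
`exists_zT F.ha.polyTime` applied to `un1T (fst v)`; polynomial time by `UFP_subst (UFP_chT ..) FPO_cor`
with `E v = node t (num L)`, `G v = node (enc z) (snd v)` and for `H` any unary program which bounds
the size of `G v`; the second argument has to be normalised (`norm (snd v) = enc (dec (snd v))`), so that
`size (G v) ≤ 4 * len z + 4 * len (snd v) + 10` (`size_enc_le`), `H v` = a sum of `addU`s.
PROOF of `exists_q`: if `F.Q (pr (ones n) u) v = true` then the test fails at `v`, so `v = []` or
`v.length = nA F.D (zS F.a n) + 1` (`Ok_of_length`), and this is bounded by a polynomial in `n`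
(`exists_zB F.ha.polyTime`).
PROOF of `Q_iff`: unfold, `un1_pr`, `un2_pr`, `ones_length`.
-/

namespace Pool.Agent.H18.CB

open Pool.Agent.H88.RO Pool.Agent.H88.RO.Tr Pool.Agent.H65.TS Pool.Agent.H65.NU Pool.Agent.H69.NL
open Pool.Agent.H93.BB (Orc zero)
open Pool.Agent.H93.BB.Tab (UFP_chT)

theorem Frm.Q_iff (F : Frm) (n : ℕ) (u v : List Bool) : F.Q (pr (ones n) u) v = true ↔
    ¬ Ok F.D F.cU (cor (decode u) (F.L n)) (zS F.a n) v := by
  unfold Frm.Q
  rw [un1_pr, un2_pr, ones_length]
  exact @decide_eq_true_iff _ (Classical.propDecidable _)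

theorem Frm.polyTime_Q (F : Frm) : PolyTimeRel zero F.Q := by
  obtain ⟨zT, hz1, hz2⟩ := exists_zT F.ha.polyTime
  -- the length `n` as a tree
  have hU : FP zero (fun v => un1T (fst v)) := FP.un1T' (FP.fst' FP.id')
  have hZ : FP zero (fun v => zT (un1T (fst v))) := hz1 hU
  have hL : FP zero (fun v => addU (num 10) (mulU (num 2) (mulU (num F.D)
      (node leaf (zT (un1T (fst v))))))) :=
    FP.addU' (FP.const' _) (FP.mulU' (FP.const' _) (FP.mulU' (FP.const' _) (FP.node' FP.leaf' hZ)))
  have hE : FP zero (fun v => node (decodeT (un2T (fst v))) (addU (num 10) (mulU (num 2)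
      (mulU (num F.D) (node leaf (zT (un1T (fst v)))))))) :=
    FP.node' (FP.decodeT' (FP.un2T' (FP.fst' FP.id'))) hL
  have hG : FP zero (fun v => node (zT (un1T (fst v))) (norm (snd v))) :=
    FP.node' hZ (FP.norm' (FP.snd' FP.id'))
  have hH : FP zero (fun v => addU (mulU (num 4) (zT (un1T (fst v))))
      (addU (mulU (num 4) (snd v)) (num 10))) :=
    FP.addU' (FP.mulU' (FP.const' _) hZ) (FP.addU' (FP.mulU' (FP.const' _) (FP.snd' FP.id'))
      (FP.const' _))
  have hs : ∀ v, size (node (zT (un1T (fst v))) (norm (snd v))) ≤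
      len (addU (mulU (num 4) (zT (un1T (fst v)))) (addU (mulU (num 4) (snd v)) (num 10))) := by
    intro v
    have h1 := size_enc_le (zS F.a (len (un1T (fst v))))
    have h2 := size_enc_le (dec (snd v))
    rw [length_dec] at h2
    simp only [hz2, norm_eq, mulU_eq, addU_num, len_num, len_enc, size]
    omega
  have key := UFP_subst (UFP_chT F.D (code F.cU))
    (Ω := fun θ => join (cor (fst θ) (len (snd θ))) zero) FPO_cor hE hG hH hs
  refine polyTimeRel_of_FP key ?_
  intro x y
  have e1 : len (addU (num 10) (mulU (num 2) (mulU (num F.D)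
      (node leaf (zT (un1T (enc x))))))) = F.L (un1 x).length := by
    rw [un1T_enc, hz2, len_enc]
    simp only [mulU_eq, addU_num, len_num, len, len_enc]
    unfold Frm.L nL nA
    ring
  have e2 : decodeT (un2T (enc x)) = decode (un2 x) := by
    rw [un2T_enc, decodeT_enc]
  simp only [fst_node, snd_node]
  rw [e1, e2, un1T_enc, hz2, len_enc, norm_eq, dec_enc]
  unfold Frm.Q
  rw [@decide_eq_true_iff _ (Classical.propDecidable _)]
  rfl

theorem Frm.exists_q (F : Frm) : ∃ q : Polynomial ℕ, ∀ (n : ℕ) (u v : List Bool),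
    F.Q (pr (ones n) u) v = true → v.length ≤ q.eval n := by
  obtain ⟨P, hP⟩ := exists_zB F.ha.polyTime
  refine ⟨Polynomial.C F.D * (P + 1) + 1, ?_⟩
  intro n u v h
  rw [F.Q_iff] at h
  simp only [Polynomial.eval_add, Polynomial.eval_mul, Polynomial.eval_C, Polynomial.eval_one]
  by_cases h0 : v = []
  · rw [h0]
    exact Nat.zero_le _
  · have h1 : v.length = nA F.D (zS F.a n) + 1 := by
      by_contra hcon
      exact h (Ok_of_length h0 hcon)
    rw [h1]
    unfold nA
    have := Nat.mul_le_mul_left F.D (Nat.add_le_add_right (hP n) 1)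
    omega

end Pool.Agent.H18.CB
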