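import Pool.Agent.H18.CB.Defs

set_option autoImplicit false

/-!
# Programs and the universal relation

PROOF. This is `LU_iff` of `Pool.Agent.H69.NL.Univ` with the two directions separated (in the first
one the bound for the length of `y` is not used there, in the second one it is proved). Copy the
proof.
-/

namespace Pool.Agent.H18.CB

open Pool.Agent.H88.RO Pool.Agent.H88.RO.Tr Pool.Agent.H65.TS Pool.Agent.H65.NU Pool.Agent.H69.NL
open Pool.Agent.H40.EL (U_mono andT andT_spec FP.andT' exists_pow_bound' lam lam_bounds)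

theorem RU_iff {O : List Bool → Bool} {V : Tr → Tr} (hV : FP O V) (P : Polynomial ℕ)
    (d : ℕ → Bool) (a : ℕ → ℕ) :
    ∃ e c : ℕ, ∀ n, d n = true → blk 0 (key d n) = e → c ≤ lam (a n) →
      (∀ w : List Bool, V (node (enc (ones n)) (enc w)) ≠ leaf →
        w.length ≤ P.eval (N2 a n)) →
      ((∃ y, RU O d (ones n) y = true) →
        ∃ w : List Bool, V (node (enc (ones n)) (enc w)) ≠ leaf) ∧
      ((∃ w : List Bool, V (node (enc (ones n)) (enc w)) ≠ leaf) →
        ∃ y : List Bool, y.length ≤ (n + 2) ^ a n ∧ RU O d (ones n) y = true) := by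
  obtain ⟨cV, q, hc⟩ := hV
  -- the size of the witness
  let W : Polynomial ℕ := Polynomial.C (size (code cV) + 10) *
    q.comp (4 * Polynomial.X + 4 * P + 3) + 11 + P
  obtain ⟨D, hD⟩ := exists_pow_bound' W
  refine ⟨sval (rpn (code cV)), 2 * D + 4, fun n hn he hcl hlen => ?_⟩
  have hmem : ∀ y : List Bool, RU O d (ones n) y = true ↔
      snd (U O (code cV) (node (enc (ones n)) (enc (prs y).2)) (prs y).1) ≠ leaf := by
    intro y
    rw [Pool.Agent.H69.NL.RU, decide_eq_true_eq, ones_length, he, mach_sval]
    exact ⟨fun h => h.2.2, fun h => ⟨rfl, hn, h⟩⟩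
  constructor
  · rintro ⟨y, hy⟩
    rw [hmem] at hy
    refine ⟨(prs y).2, ?_⟩
    rcases U_cases (O := O) (code cV) (node (enc (ones n)) (enc (prs y).2)) (prs y).1 with h | ⟨r, h⟩
    · rw [h] at hy
      exact absurd rfl hy
    · obtain ⟨t, _, ht⟩ := hc (node (enc (ones n)) (enc (prs y).2))
      have h1 := U_mono (le_max_left (prs y).1 ((size (code cV) + 10) * t + 10)) h
      have h2 := U_eq ht (le_max_right (prs y).1 ((size (code cV) + 10) * t + 10))
      rw [h1] at h2
      injection h2 with _ h3
      rw [h] at hy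
      rw [← h3]
      exact hy
  · rintro ⟨w, hw⟩
    obtain ⟨t, ht, het⟩ := hc (node (enc (ones n)) (enc w))
    have hwl := hlen w hw
    refine ⟨List.replicate ((size (code cV) + 10) * t + 10) true ++ false :: w, ?_, ?_⟩
    · have hm : 2 ≤ N2 a n := by
        unfold N2
        calc 2 ≤ n + 2 := by omega
          _ = (n + 2) ^ 1 := (pow_one _).symm
          _ ≤ _ := Nat.pow_le_pow_right (by omega) (Nat.one_le_two_pow)
      have hnm : n ≤ N2 a n := by
        unfold N2
        calc n ≤ n + 2 := by omega
          _ = (n + 2) ^ 1 := (pow_one _).symm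
          _ ≤ _ := Nat.pow_le_pow_right (by omega) (Nat.one_le_two_pow)
      have h1 : size (node (enc (ones n)) (enc w)) ≤ 4 * N2 a n + 4 * P.eval (N2 a n) + 3 := by
        have h2 := size_enc_le (ones n)
        have h3 := size_enc_le w
        rw [ones_length] at h2
        simp only [size]
        omega
      have h4 : t ≤ q.eval (4 * N2 a n + 4 * P.eval (N2 a n) + 3) := ht.trans (poly_mono q h1)
      have h5 : (size (code cV) + 10) * t + 10 + (w.length + 1) ≤ W.eval (N2 a n) := by
        have h6 := Nat.mul_le_mul_left (size (code cV) + 10) h4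
        simp only [W, Polynomial.eval_add, Polynomial.eval_mul, Polynomial.eval_C,
          Polynomial.eval_comp, Polynomial.eval_ofNat, Polynomial.eval_X]
        omega
      have h7 : W.eval (N2 a n) ≤ (N2 a n + 2) ^ D := hD D le_rfl _
      have h8 : (N2 a n + 2) ^ D ≤ (n + 2) ^ a n := by
        calc (N2 a n + 2) ^ D ≤ (N2 a n ^ 2) ^ D := Nat.pow_le_pow_left (by nlinarith) D
          _ = (n + 2) ^ (2 ^ (2 * lam (a n)) * (2 * D)) := by
              unfold N2
              rw [← pow_mul, ← pow_mul]
          _ ≤ (n + 2) ^ (2 ^ (3 * lam (a n))) := by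
              apply Nat.pow_le_pow_right (by omega)
              have h9 : 2 * D ≤ 2 ^ lam (a n) := by
                have := Nat.lt_two_pow_self (n := lam (a n))
                omega
              calc 2 ^ (2 * lam (a n)) * (2 * D) ≤ 2 ^ (2 * lam (a n)) * 2 ^ lam (a n) :=
                    Nat.mul_le_mul_left _ h9
                _ = 2 ^ (3 * lam (a n)) := by rw [← pow_add]; congr 1; ring
          _ ≤ (n + 2) ^ a n := Nat.pow_le_pow_right (by omega) (lam_cube (by omega))
      rw [List.length_append, List.length_replicate, List.length_cons]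
      omega
    · rw [hmem, prs_ones, U_eq het le_rfl, snd_node]
      exact hw

end Pool.Agent.H18.CB
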