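import Pool.Agent.H18.CB.ZT
import Pool.Agent.H18.CB.CT

set_option autoImplicit false

/-!
# Easy tables have short descriptions

PROOF of `log_bound`: `log n ≤ F.L n` (`zS_length`), so with `m = α (log n)`, `F.a n = lam m` we
have `m ≤ α (F.L n)`. `F.L n = 2 D (log n + 2) (a n + 1) + 10 ≤ log n * (6 D (lam m + 1) + 10)` for
`log n ≥ 1`. If `lam m` is large (depending on `D`) then `6 D (lam m + 1) + 10 ≤ m`, as
`2 ^ 2 ^ lam m ≤ m + 2` (`lam_bounds`). So `F.L n ≤ log n * α (F.L n)`. (`log n ≥ 1`: if `log n = 0` then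
`m = α 0`; take the threshold `K` larger than `lam (α 0)`.)
If `C.length > n = 2 ^ log n` (`dP n = true`) then `C.length ^ α L ≥ (2 ^ log n + 1) ^ α L > 2 ^ (log n * α L) ≥ 2 ^ L`
(if `α L > 0`; it is at least `m ≥ 1`), against the hypothesis. So `C.length ≤ n`.
PROOF of `exists_p`: `exists_string`, and the length is at most `n * (4 * (L n + n) + 4) + 1`, bounded
by a polynomial in `n` by `Frm.exists_LB`.
-/

namespace Pool.Agent.H18.CB

open Pool.Agent.H88.RO Pool.Agent.H88.RO.Tr Pool.Agent.H65.TS Pool.Agent.H65.NU Pool.Agent.H69.NL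
open Pool.Agent.H93.BB (Orc zero)
open Pool.Agent.H40.EL (lam lam_bounds)

private theorem two_mul_le_pow (A : ℕ) : 2 * A ≤ 2 ^ A := by
  induction A with
  | zero => simp
  | succ A ih =>
    rcases Nat.eq_zero_or_pos A with h | h
    · subst h
      norm_num
    · have h1 : 2 ^ (A + 1) = 2 * 2 ^ A := pow_succ' 2 A
      omega

private theorem mul_le_pow_pow (A : ℕ) : A * (A + 1) ≤ 2 ^ 2 ^ A := by
  have h1 : A + 1 ≤ 2 ^ A := Nat.lt_two_pow_self
  calc A * (A + 1) ≤ 2 ^ A * 2 ^ A := Nat.mul_le_mul (by omega) h1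
    _ = 2 ^ (A + A) := by rw [pow_add]
    _ ≤ 2 ^ 2 ^ A := by
      refine Nat.pow_le_pow_right (by norm_num) ?_
      have := two_mul_le_pow A
      omega

private theorem lam_le (A : ℕ) : lam A ≤ A := by
  have h1 := (lam_bounds A).1
  have h2 : lam A + 1 ≤ 2 ^ lam A := Nat.lt_two_pow_self
  have h3 : 2 ^ lam A + 1 ≤ 2 ^ 2 ^ lam A := Nat.lt_two_pow_self
  omega

theorem Frm.log_bound (F : Frm) (α : ℕ → ℕ) (hm : Monotone α)
    (hα : ∀ n, F.a n = lam (α (Nat.log 2 n))) :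
    ∃ K : ℕ, ∀ n, dP n = true → K ≤ lam (F.a n) → ∀ s : ℕ,
      s ^ α (F.L n) ≤ 2 ^ F.L n → s ≤ n := by
  refine ⟨6 * F.D + 12 + lam (lam (α 0)) + 1, fun n hn hK s hs => ?_⟩
  have h1 : 2 ^ Nat.log 2 n = n := of_decide_eq_true hn
  have hl : 1 ≤ Nat.log 2 n := by
    by_contra hcon
    have h2 : Nat.log 2 n = 0 := by omega
    have h3 := hα n
    rw [h2] at h3
    rw [h3] at hK
    omega
  have hA1 := lam_le (F.a n)
  -- the number of variables
  have hL : F.L n = 2 * (F.D * ((Nat.log 2 n + 2) * (F.a n + 1))) + 10 := by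
    unfold Frm.L nL nA
    rw [zS_length]
  have hmA := (lam_bounds (α (Nat.log 2 n))).1
  rw [← hα] at hmA
  have hpp := mul_le_pow_pow (F.a n)
  have hm1 : 6 * F.D * (F.a n + 1) + 10 ≤ α (Nat.log 2 n) := by
    have h4 : (6 * F.D + 12) * (F.a n + 1) ≤ F.a n * (F.a n + 1) :=
      Nat.mul_le_mul_right _ (by omega)
    have h5 : (6 * F.D + 12) * (F.a n + 1) = 6 * F.D * (F.a n + 1) + 12 * (F.a n + 1) := by ring
    omega
  have hL1 : F.L n ≤ Nat.log 2 n * (6 * F.D * (F.a n + 1) + 10) := by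
    rw [hL]
    have h4 : Nat.log 2 n + 2 ≤ 3 * Nat.log 2 n := by omega
    have h5 : F.D * ((Nat.log 2 n + 2) * (F.a n + 1)) ≤ F.D * ((3 * Nat.log 2 n) * (F.a n + 1)) :=
      Nat.mul_le_mul_left _ (Nat.mul_le_mul_right _ h4)
    have h6 : Nat.log 2 n * (6 * F.D * (F.a n + 1) + 10) =
        2 * (F.D * ((3 * Nat.log 2 n) * (F.a n + 1))) + 10 * Nat.log 2 n := by ring
    omega
  have hlogL : Nat.log 2 n ≤ F.L n := by
    rw [hL]
    have hD : 1 ≤ F.D := by
      unfold Frm.D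
      omega
    have h4 : 1 * (Nat.log 2 n * 1) ≤ F.D * ((Nat.log 2 n + 2) * (F.a n + 1)) :=
      Nat.mul_le_mul hD (Nat.mul_le_mul (by omega) (by omega))
    omega
  have hmono := hm hlogL
  by_contra hcon
  have h7 : 2 ^ Nat.log 2 n < s := by omega
  have h8 : (2 ^ Nat.log 2 n) ^ α (F.L n) < s ^ α (F.L n) :=
    Nat.pow_lt_pow_left h7 (by omega)
  have h9 : 2 ^ F.L n ≤ (2 ^ Nat.log 2 n) ^ α (F.L n) := by
    rw [← pow_mul]
    refine Nat.pow_le_pow_right (by norm_num) (hL1.trans (Nat.mul_le_mul_left _ (hm1.trans hmono)))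
  omega

theorem Frm.exists_p (F : Frm) (α : ℕ → ℕ) (hm : Monotone α)
    (hα : ∀ n, F.a n = lam (α (Nat.log 2 n))) :
    ∃ (p : Polynomial ℕ) (K : ℕ), ∀ n, dP n = true → K ≤ lam (F.a n) →
      ∀ (y : List Bool) (C : Circuit), y.length = 2 ^ F.L n → Computes C y →
        C.length ^ α (F.L n) ≤ 2 ^ F.L n →
        ∃ u : List Bool, u.length ≤ p.eval n ∧ Computes (circOf (decode u)) y := by
  obtain ⟨P, hP⟩ := F.exists_LB
  obtain ⟨K, hK⟩ := F.log_bound α hm hα
  refine ⟨Polynomial.X * (4 * (P + Polynomial.X) + 4) + 1, K, fun n hn hKn y C hy hC hs => ?_⟩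
  obtain ⟨u, hu, hu2⟩ := exists_string hy hC
  refine ⟨u, hu.trans ?_, hu2⟩
  have h1 := hK n hn hKn _ hs
  have h2 := hP n
  simp only [Polynomial.eval_add, Polynomial.eval_mul, Polynomial.eval_X, Polynomial.eval_one,
    Polynomial.eval_ofNat]
  have h3 : C.length * (4 * (F.L n + C.length) + 4) ≤ n * (4 * (P.eval n + n) + 4) :=
    Nat.mul_le_mul h1 (by omega)
  omega

end Pool.Agent.H18.CB
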