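import Pool.Agent.H18.CB.Loc

set_option autoImplicit false

/-!
# Completeness: tableaux as truth tables

PROOF. Let `D = 2 * C + size (code c) + 4`, `N = nA D z`, `L = nL D z = 2 * N + 10`. As in the proof
of `exists_TAB` (`Pool.Agent.H93.BB.Tab`, fourth clause) there is `F : ℕ → ℕ → ℕ` with values
below `2 ^ N` such that `orc F` passes all tests. Table: `y` of length `2 ^ L` with entry number `m`
equal to `orc F (k, j, a.take N)` for the parts `k, j, a` of the string `bits L m`, that is, with
`g : List Bool → Bool` given by `parse q = some (k, q')`, `parse q' = some (j, a)`,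
`g q = orc F (qry k j (a.take N))` (and `false` if parsing fails), `y = (List.range (2 ^ L)).map (fun m => g (bits L m))`.
For `q = qry k j a` with `k ≤ 7`, `j < N`, `a.length = N`: `q.length ≤ 2 * N + 8`, `val q < 2 ^ L`
(`val_lt`), `bits L (val q) = q ++ List.replicate (L - q.length) false` (both have length `L` and the
same value, `val_inj`, and `val` does not change if zeros are appended), and parsing it gives `k`,
`j` and `a ++ zeros`, and `take N` gives `a` (`parse_ones`, `qry`). So `tor y q = orc F q`.
The tests for `tor y`: they depend only on the values at these queries. (In `Ok_congr` the hypothesis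
is for all short strings; here it is only true for strings of the form `qry k j a` with `k ≤ 7`,
`j < N`, `a.length = N`. So either prove the congruence lemma in this stronger form in this file,
in the same way as in `Loc.lean` (equality of `fld A N k a` for `k ≤ 7` and `a.length = N` implies
equivalence of the tests), or use `complete_STab` and the equalities `fld (tor y) N k a = fld (orc F) N k a`.)
-/

namespace Pool.Agent.H18.CB

open Pool.Agent.H88.RO Pool.Agent.H88.RO.Tr Pool.Agent.H65.TS Pool.Agent.H65.NU Pool.Agent.H69.NL
open Pool.Agent.H93.BB Pool.Agent.H93.BB.Tab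

theorem val_append_zeros (q : List Bool) (n : ℕ) :
    val (q ++ List.replicate n false) = val q := by
  induction q with
  | nil =>
    have := val_nl n
    simpa [nl, val] using this
  | cons b q ih =>
    simp only [List.cons_append, val, ih]

/-- the string of the number of a padded query -/
theorem bits_val_pad {L : ℕ} {q : List Bool} (h : q.length ≤ L) :
    bits L (val q) = q ++ List.replicate (L - q.length) false := by
  apply val_inj (length_bits L _)
  · simp
    omega
  · rw [val_append_zeros, val_bits L]
    exact (val_lt q).trans_le (Nat.pow_le_pow_right (by norm_num) h)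

/-- the value of the oracle of a tableau, with the address cut to `N` bits -/
def gq (F : ℕ → ℕ → ℕ) (N : ℕ) : Orc := fun q =>
  match parse q with
  | none => false
  | some (k, q') => match parse q' with
    | none => false
    | some (j, a) => (F k (val (a.take N))).testBit j

theorem gq_qry (F : ℕ → ℕ → ℕ) (N k j : ℕ) {a : List Bool} (ha : a.length = N) (n : ℕ) :
    gq F N (qry k j a ++ List.replicate n false) = (F k (val a)).testBit j := by
  have e : qry k j a ++ List.replicate n false =
      List.replicate k true ++ false :: (List.replicate j true ++ false ::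
        (a ++ List.replicate n false)) := by
    simp [qry]
  rw [e]
  unfold gq
  simp only [H65.TS.parse_ones]
  rw [← ha, List.take_left']
  rfl

/-- completeness of tableaux, with truth tables -/
theorem Ok_complete (c : Prog) (C : ℕ) {z : List Bool} {Y v : Tr} {t : ℕ} (hv : v ≠ leaf)
    (he : Eval zero c (node (enc z) Y) v t) (ht : t ≤ 2 ^ (C * z.length + C)) :
    ∃ y : List Bool, y.length = 2 ^ nL (2 * C + size (code c) + 4) z ∧
      ∀ u, Ok (2 * C + size (code c) + 4) c (tor y) z u := by
  set S := size (code c) with hS
  set D := 2 * C + S + 4 with hD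
  have hD4 : size (code c) + 4 ≤ D := by rw [hD, ← hS]; omega
  obtain ⟨F, hF, hb⟩ := exists_NTab he
  have hN : ∀ k i, F k i < 2 ^ (D * (z.length + 1)) := by
    intro k i
    refine (hb k i).trans_lt ?_
    have ht0 : 1 ≤ t := by have := he.cost_ge; omega
    have h1 : t * (size (code c) + t + 2 * t) + 1 ≤ (t * t) * (S + 4) := by
      have e1 : t * (size (code c) + t + 2 * t) = t * S + 3 * (t * t) := by rw [← hS]; ring
      have e2 : (t * t) * (S + 4) = (t * t) * S + 4 * (t * t) := by ring
      have e3 : t * S ≤ (t * t) * S := Nat.mul_le_mul_right _ (Nat.le_mul_of_pos_left _ ht0)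
      have e4 : 1 * 1 ≤ t * t := Nat.mul_le_mul ht0 ht0
      omega
    refine h1.trans_lt ?_
    have h2 : t * t ≤ 2 ^ (C * z.length + C) * 2 ^ (C * z.length + C) := Nat.mul_le_mul ht ht
    have h3 : S + 4 < 2 ^ (S + 4) := Nat.lt_two_pow_self
    have h4 : (t * t) * (S + 4) < 2 ^ (C * z.length + C) * 2 ^ (C * z.length + C) * 2 ^ (S + 4) := by
      calc (t * t) * (S + 4) ≤ 2 ^ (C * z.length + C) * 2 ^ (C * z.length + C) * (S + 4) :=
            Nat.mul_le_mul_right _ h2
        _ < _ := (Nat.mul_lt_mul_left (by positivity)).mpr h3
    refine h4.trans_le ?_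
    rw [← pow_add, ← pow_add]
    apply Nat.pow_le_pow_right (by norm_num)
    have e5 : D * (z.length + 1) = 2 * (C * z.length) + 2 * C + (S * z.length) + S +
      4 * z.length + 4 := by rw [hD]; ring
    omega
  obtain ⟨g1, g2, g3⟩ := complete_STab hF hN hv
  set N := nA D z with hNdef
  have hNe : D * (z.length + 1) = N := rfl
  rw [hNe] at g1 g2 g3
  set L := nL D z with hL
  have hLN : L = 2 * N + 10 := rfl
  refine ⟨(List.range (2 ^ L)).map (fun m => gq F N (bits L m)), by simp, fun u => ?_⟩
  have hok : Ok D c (orc F) z u := by
    cases u with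
    | nil => exact (Ok_nil_iff hD4).mpr g3
    | cons b a =>
      refine (Ok_cons_iff b a).mpr (fun ha => ?_)
      cases b with
      | false => exact g1 a ha
      | true => exact g2 a ha
  refine (Ok_congr_fld hD4 (fun k hk a ha => ?_) u).mp hok
  rw [← hNdef] at ha ⊢
  unfold fld
  apply List.map_congr_left
  intro j hj
  rw [List.mem_range] at hj
  have hlen : (qry k j a).length ≤ L := by
    rw [length_qry, hLN, ha]
    omega
  have hval : val (qry k j a) < 2 ^ L :=
    (val_lt _).trans_le (Nat.pow_le_pow_right (by norm_num) hlen)
  have e1 : tor ((List.range (2 ^ L)).map (fun m => gq F N (bits L m))) (qry k j a) =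
      gq F N (bits L (val (qry k j a))) := by
    unfold tor
    rw [List.getD_eq_getElem?_getD, List.getElem?_map, List.getElem?_range hval]
    rfl
  rw [e1, bits_val_pad hlen, gq_qry F N k j ha]
  simp only [orc, qry, H65.TS.parse_ones]

end Pool.Agent.H18.CB
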