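import Pool.Agent.H18.CB.S2
import Pool.Agent.H18.CB.QP
import Pool.Agent.H18.CB.Small
import Pool.Agent.H18.CB.Tab2
import Pool.Agent.H18.CB.RUi
import Pool.Agent.H69.NL.SigmaHalf

set_option autoImplicit false

/-!
# The main theorem on circuits
-/

namespace Pool.Agent.H18.CB

open Pool.Agent.H88.RO Pool.Agent.H88.RO.Tr Pool.Agent.H65.TS Pool.Agent.H65.NU Pool.Agent.H69.NL
open Pool.Agent.H93.BB (Orc zero)
open Pool.Agent.H40.EL (lam)

/-- A complete total NP search problem gives a total NP search problem with hard solutions. -/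
theorem Frm.main (F : Frm) (α : ℕ → ℕ) (hm : Monotone α)
    (hα : ∀ n, F.a n = lam (α (Nat.log 2 n))) (T : TFNP zero) (hT : T.IsComplete) :
    ∃ S : TFNP zero, ∀ B : ℕ, ∃ m, B ≤ m ∧ ∀ y : List Bool, S.IsSol (ones (2 ^ m)) y →
      y.length = 2 ^ (2 * F.D * m + 10) ∧ ∀ C : Circuit, Computes C y →
        2 ^ (2 * F.D * m + 10) < C.length ^ α (2 * F.D * m + 10) := by
  classical
  obtain ⟨p, Kp, hp⟩ := F.exists_p α hm hα
  obtain ⟨q, hq⟩ := F.exists_q
  let D : Dat zero := ⟨T, F.Q, p, q, F.a, dP, F.polyTime_Q, F.ha.polyTime, polyTime_dP⟩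
  have hDa : D.a = F.a := rfl
  have hDd : D.d = dP := rfl
  have hcode : size (code F.cU) + 4 ≤ F.D := by
    unfold Frm.D
    omega
  -- solutions of `Sol` are failing positions
  have hSol : ∀ (n : ℕ) (u v : List Bool),
      ¬ Ok F.D F.cU (cor (decode u) (F.L n)) (zS F.a n) v → D.Sol n u v := by
    intro n u v h
    have h1 : F.Q (pr (ones n) u) v = true := (F.Q_iff n u v).mpr h
    refine ⟨(hq n u v h1).trans (poly_mono q ?_), h1⟩
    rw [pr_length, ones_length]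
    omega
  have hSol' : ∀ (n : ℕ) (u v : List Bool), D.Sol n u v →
      ¬ Ok F.D F.cU (cor (decode u) (F.L n)) (zS F.a n) v :=
    fun n u v h => (F.Q_iff n u v).mp h.2
  obtain ⟨V, hV, hVs⟩ := D.exists_V2
  obtain ⟨e, c, hec⟩ := RU_iff hV (2 * Polynomial.X + 2 + D.T.p) dP F.a
  -- the universal relation at the marked lengths
  have hiff : ∀ n, Cd F.a dP e c n → ((∃ y, RU zero dP (ones n) y = true) → ∃ w, D.Ref2 n w) ∧
      ((∃ w, D.Ref2 n w) → ∃ y : List Bool, y.length ≤ (n + 2) ^ F.a n ∧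
        RU zero dP (ones n) y = true) := by
    intro n hn
    obtain ⟨h1, h2⟩ := hec n hn.1 hn.2.1 hn.2.2 (by
      intro w hw
      obtain ⟨h1, h2, h3, _⟩ := (hVs n w).mp hw
      have h4 := length_le_prs w
      have h5 := length_le_prs (prs w).2
      have h6 := h3.1.trans (poly_mono D.T.p (run_length _ _ _))
      have h7 := N1_le_N2 F.a n
      rw [hDa] at h1 h2 h6
      simp only [Polynomial.eval_add, Polynomial.eval_mul, Polynomial.eval_ofNat,
        Polynomial.eval_X]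
      omega)
    refine ⟨fun h => ?_, fun h => ?_⟩
    · obtain ⟨w, hw⟩ := h1 h
      exact ⟨_, ((hVs n w).mp hw).2.2⟩
    · obtain ⟨w, hw⟩ := h
      refine h2 ⟨List.replicate (N2 F.a n) true ++ false ::
        (List.replicate (N1 F.a n) true ++ false :: w), (hVs n _).mpr ?_⟩
      rw [prs_ones, prs_ones]
      exact ⟨rfl, rfl, hw⟩
  -- the problem `S2` is total
  obtain ⟨Kk, hKk⟩ := F.exists_pack D hDa
  have htot2 : ∀ n, Cd F.a dP e (max c Kk) n → ∃ y : List Bool, y.length = 2 ^ F.L n ∧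
      ((∀ u, Ok F.D F.cU (tor y) (zS F.a n) u) ∨ D.Core n (unpack y)) := by
    intro n hn
    have hcd : Cd F.a dP e c n := ⟨hn.1, hn.2.1, (le_max_left _ _).trans hn.2.2⟩
    by_cases hcore : ∃ w, D.Core n w
    · obtain ⟨w, hw⟩ := hcore
      obtain ⟨y, hy1, hy2⟩ := hKk n w ((le_max_right _ _).trans hn.2.2) hw
      exact ⟨y, hy1, Or.inr (by rw [hy2]; exact hw)⟩
    · push Not at hcore
      obtain ⟨w, hw⟩ := T.total (run zero (blk 1 (key D.d n)) (enc (Zst D.a n)) (N2 D.a n))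
      obtain ⟨y, hy1, hy2⟩ := (hiff n hcd).2 ⟨w, hw, hcore _⟩
      obtain ⟨Y, v, t, hv, he, ht⟩ := F.complete n y hn.1 hy1 hy2
      obtain ⟨y', h1, h2⟩ := Ok_complete F.cU F.C hv he ht
      exact ⟨y', h1, Or.inl h2⟩
  obtain ⟨S2, hS2⟩ := F.exists_S2 D hDa hDd e (max c Kk) htot2
  refine ⟨S2, ?_⟩
  by_contra hcon
  push Not at hcon
  obtain ⟨B, hB⟩ := hcon
  -- the problem `S0` is total at the lengths with large exponents
  set c1 : ℕ := max (max c Kk) (max Kp (lam (F.a (2 ^ B)) + 1)) with hc1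
  have htot0 : ∀ n, Cd F.a dP e c1 n → ∃ y, D.Core n y := by
    intro n hn
    have hcd2 : Cd F.a dP e (max c Kk) n := ⟨hn.1, hn.2.1, (le_max_left _ _).trans hn.2.2⟩
    have hKpn : Kp ≤ lam (F.a n) := by
      have h1 := hn.2.2
      omega
    have hL : F.L n = 2 * F.D * ((zS F.a n).length + 1) + 10 := by
      unfold Frm.L nL nA
      ring
    have hBn : B ≤ (zS F.a n).length + 1 := by
      by_contra h
      have h1 : n ≤ 2 ^ B := by
        have h0 : F.M n ≤ 2 ^ B := Nat.pow_le_pow_right (by norm_num) (by omega)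
        have := F.n_le n
        omega
      have h2 : lam (F.a n) ≤ lam (F.a (2 ^ B)) := by
        unfold lam
        exact Nat.log_mono_right (Nat.log_mono_right (Nat.add_le_add_right (F.ha.mono h1) 2))
      have h3 := hn.2.2
      omega
    by_contra hcore
    push Not at hcore
    obtain ⟨y, hy, hyL⟩ := hB _ hBn
    obtain ⟨h1, h2⟩ := hS2 n y hcd2 hy
    rw [← hL] at hyL
    rcases h2 with h2 | h2
    · obtain ⟨Ci, hCi1, hCi2⟩ := hyL h1
      obtain ⟨u, hu1, hu2⟩ := hp n hn.1 hKpn y Ci h1 hCi1 hCi2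
      obtain ⟨v, hv⟩ := D.sol_of_not_core hcore u hu1
      apply hSol' n u v hv
      exact (Ok_congr hcode (fun x hx => cor_eq_tor h1 hu2 hx) v).mpr (h2 v)
    · exact hcore _ h2
  obtain ⟨cT, hcT, hcT'⟩ := D.exists_cdT e c1
  obtain ⟨S0, hS0⟩ := D.exists_S0 (Cd F.a dP e c1) cT hcT hcT' htot0
  obtain ⟨i1, i2, Bi, hBi⟩ := run_red (hT S0)
  obtain ⟨K, hK⟩ := poly_le_N2 Bi
  -- the problem `S1` is total
  have hno : ∀ n, Cd2 F.a dP e i1 i2 (max c1 K) n → ∀ u : List Bool, u.length ≤ D.p.eval n →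
      ∃ v, D.Sol n u v := by
    intro n hn u _
    have hcd : Cd F.a dP e c1 n := ⟨hn.1.1, hn.1.2.1, (le_max_left _ _).trans hn.1.2.2⟩
    have hcdc : Cd F.a dP e c n := ⟨hcd.1, hcd.2.1, by
      have h1 := hcd.2.2
      omega⟩
    by_contra hno
    push Not at hno
    have hok : ∀ v, Ok F.D F.cU (cor (decode u) (F.L n)) (zS F.a n) v := by
      intro v
      by_contra h
      exact hno v (hSol n u v h)
    obtain ⟨Y, v, t, hv, he⟩ := Ok_sound hcode hok
    obtain ⟨w, hw1, hw2⟩ := (hiff n hcdc).1 (F.sound n Y v t hn.1.1 hv he)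
    have e1 : blk 1 (key D.d n) = i1 := hn.2.1
    have e2 : blk 2 (key D.d n) = i2 := hn.2.2
    rw [e1] at hw1
    rw [e2] at hw2
    apply hw2
    apply hS0 n _ hcd
    refine hBi _ _ ?_ _ hw1
    refine le_trans (poly_mono Bi (n := 2 * N1 D.a n) ?_) (hK D.a n ?_)
    · rw [Zst_length]
      have := lt_N1 D.a n
      omega
    · exact (le_max_right _ _).trans hn.1.2.2
  obtain ⟨cT', hcT1, hcT2⟩ := D.exists_cd2T e i1 i2 (max c1 K)
  obtain ⟨S1, hS1⟩ := D.exists_S1 (Cd2 F.a dP e i1 i2 (max c1 K)) cT' hcT1 hcT2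
    (fun n hn => hno n hn)
  obtain ⟨j1, j2, K', hK'⟩ := D.not_core (hT S1) hS1
  obtain ⟨n, hn1, hn2, hn3⟩ := exists_large F.ha marks_dP (Pool.Agent.H69.NL.mk [e, i1, i2, j1, j2])
    (max (max c1 K) K')
  have hcd2 : Cd2 F.a dP e i1 i2 (max c1 K) n := by
    refine ⟨⟨hn1, by rw [hn2, blk_zero], (le_max_left _ _).trans hn3⟩, ?_, ?_⟩
    · rw [hn2, blk_succ, blk_zero]
    · rw [hn2, blk_succ, blk_succ, blk_zero]
  have hcd : Cd F.a dP e c1 n :=
    ⟨hcd2.1.1, hcd2.1.2.1, (le_max_left _ _).trans hcd2.1.2.2⟩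
  obtain ⟨y, hy⟩ := htot0 n hcd
  refine hK' n hcd2 ((le_max_right _ _).trans hn3) ?_ ?_ y hy
  · show blk 3 (key dP n) = j1
    rw [hn2, blk_succ, blk_succ, blk_succ, blk_zero]
  · show blk 4 (key dP n) = j2
    rw [hn2, blk_succ, blk_succ, blk_succ, blk_succ, blk_zero]

end Pool.Agent.H18.CB
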