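import Pool.Agent.H18.CB.ZT

set_option autoImplicit false

/-!
# Packing solutions into tables

PROOF. `y = List.replicate w.length true ++ false :: (w ++ List.replicate r false)` with
`r = 2 ^ F.L n - (2 * w.length + 1)`; `unpack y = w` by `prs_ones` and `List.take_left`. Needed:
`2 * w.length + 1 ≤ 2 ^ F.L n`. By `Dat.core_length` (with `m = N1 D.a n`) `w.length ≤ D.cB.eval (N1 D.a n)`,
and `2 * D.cB + 1` at `N1` is at most `(N1 + 2) ^ c` (`exists_pow_bound'` in `Pool.Agent.H40.EL.Arith2`), and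
`(N1 + 2) ^ c ≤ N1 ^ (2 c) = (n + 2) ^ (2 ^ lam (a n) * (2 c)) ≤ (n + 2) ^ (a n) ≤ 2 ^ |z| ≤ 2 ^ F.L n` if `2 c ≤ 2 ^ lam (a n)`
and `4 ≤ lam (a n)` (`lam_cube` in `Pool.Agent.H69.NL.Univ`: `2 ^ (3 * lam m) ≤ m`; the computation is the
same as in the last part of the proof of `LU_iff` there), `pow_le_zS`.
`N1_le_L`: `2 ^ lam m ≤ m + 1` for all `m` (`lam m ≤ log (log (m + 2))`, `2 ^ lam m ≤ log (m + 2) ≤ m + 1`), so
`N1 a n = (n + 2) ^ (2 ^ lam (a n)) ≤ (n + 2) ^ (a n + 1) ≤ 2 ^ ((log n + 2) * (a n + 1)) = 2 ^ (|z| + 1) ≤ 2 ^ F.L n`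
(the last one as `F.D ≥ 1`, `nL D z ≥ 2 D (|z| + 1)`).
-/

namespace Pool.Agent.H18.CB

open Pool.Agent.H88.RO Pool.Agent.H88.RO.Tr Pool.Agent.H65.TS Pool.Agent.H65.NU Pool.Agent.H69.NL
open Pool.Agent.H93.BB (Orc zero)
open Pool.Agent.H40.EL (lam lam_bounds exists_pow_bound')

private theorem two_pow_lam (m : ℕ) : 2 ^ lam m ≤ m + 1 := by
  have h1 := (lam_bounds m).1
  have h2 := Nat.lt_two_pow_self (n := 2 ^ lam m)
  omega

private theorem len_lt_L (F : Frm) (n : ℕ) : (zS F.a n).length + 1 < F.L n := by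
  have h1 : 4 ≤ F.D := by
    unfold Frm.D
    omega
  have h2 : 1 * ((zS F.a n).length + 1) ≤ F.D * ((zS F.a n).length + 1) := Nat.mul_le_mul_right _ (by omega)
  unfold Frm.L nL nA
  omega

theorem Frm.N1_lt_L (F : Frm) (n : ℕ) : N1 F.a n < 2 ^ F.L n := by
  have h1 : n + 2 ≤ 2 ^ (Nat.log 2 n + 2) := by
    have h2 := Nat.lt_pow_succ_log_self (b := 2) (by norm_num) n
    have h3 : 2 ^ (Nat.log 2 n + 2) = 2 * 2 ^ (Nat.log 2 n + 1) := by
      rw [pow_succ 2 (Nat.log 2 n + 1)]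
      ring
    have h4 : 1 ≤ 2 ^ (Nat.log 2 n + 1) := Nat.one_le_two_pow
    have h5 : n < 2 ^ (Nat.log 2 n + 1) := h2
    have h6 : 2 ≤ 2 ^ (Nat.log 2 n + 1) := by
      calc 2 = 2 ^ 1 := rfl
        _ ≤ 2 ^ (Nat.log 2 n + 1) := Nat.pow_le_pow_right (by norm_num) (by omega)
    omega
  calc N1 F.a n = (n + 2) ^ (2 ^ lam (F.a n)) := rfl
    _ ≤ (n + 2) ^ (F.a n + 1) := Nat.pow_le_pow_right (by omega) (two_pow_lam _)
    _ ≤ (2 ^ (Nat.log 2 n + 2)) ^ (F.a n + 1) := Nat.pow_le_pow_left h1 _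
    _ = 2 ^ ((zS F.a n).length + 1) := by rw [← pow_mul, zS_length]
    _ < 2 ^ F.L n := Nat.pow_lt_pow_right (by norm_num) (len_lt_L F n)

theorem Frm.exists_pack (F : Frm) (D : Dat zero) (hDa : D.a = F.a) :
    ∃ K : ℕ, ∀ (n : ℕ) (w : List Bool), K ≤ lam (F.a n) → D.Core n w →
      ∃ y : List Bool, y.length = 2 ^ F.L n ∧ unpack y = w := by
  obtain ⟨c, hc⟩ := exists_pow_bound' (2 * D.cB + 1)
  refine ⟨2 * c + 4, fun n w hK hw => ?_⟩
  have h1 := D.core_length hw le_rfl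
  rw [hDa] at h1
  have h2 := hc c le_rfl (N1 F.a n)
  simp only [Polynomial.eval_add, Polynomial.eval_mul, Polynomial.eval_ofNat, Polynomial.eval_one] at h2
  have hm := lt_N1 F.a n
  have h3 : (N1 F.a n + 2) ^ c ≤ (n + 2) ^ F.a n := by
    calc (N1 F.a n + 2) ^ c ≤ (N1 F.a n ^ 2) ^ c := Nat.pow_le_pow_left (by nlinarith) c
      _ = (n + 2) ^ (2 ^ lam (F.a n) * (2 * c)) := by
          unfold N1
          rw [← pow_mul, ← pow_mul]
      _ ≤ (n + 2) ^ (2 ^ (3 * lam (F.a n))) := by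
          apply Nat.pow_le_pow_right (by omega)
          have h9 : 2 * c ≤ 2 ^ lam (F.a n) := by
            have := Nat.lt_two_pow_self (n := lam (F.a n))
            omega
          calc 2 ^ lam (F.a n) * (2 * c) ≤ 2 ^ lam (F.a n) * 2 ^ lam (F.a n) := Nat.mul_le_mul_left _ h9
            _ = 2 ^ (2 * lam (F.a n)) := by rw [← pow_add]; congr 1; ring
            _ ≤ 2 ^ (3 * lam (F.a n)) := Nat.pow_le_pow_right (by norm_num) (by omega)
      _ ≤ (n + 2) ^ F.a n := Nat.pow_le_pow_right (by omega) (lam_cube (by omega))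
  have h4 : 2 * w.length + 1 ≤ 2 ^ F.L n := by
    have h5 := pow_le_zS F.a n
    have h6 : 2 ^ (zS F.a n).length ≤ 2 ^ F.L n :=
      Nat.pow_le_pow_right (by norm_num) (by have := len_lt_L F n; omega)
    omega
  refine ⟨List.replicate w.length true ++ false :: (w ++ List.replicate (2 ^ F.L n - (2 * w.length + 1)) false),
    ?_, ?_⟩
  · simp only [List.length_append, List.length_replicate, List.length_cons]
    omega
  · unfold unpack
    rw [prs_ones]
    exact List.take_left' rfl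

end Pool.Agent.H18.CB
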