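import Pool.Agent.H18.CB.Fin
import Pool.Agent.H91.EL.Turing

/-!
# A complete total NP search problem gives nearly exponential circuit lower bounds

The computation model, total NP search problems and completeness are defined in
`Pool.Agent.H88.RO.Model` (here always with the trivial oracle `zero`, that is, without oracle),
polynomial time Turing reductions in `Pool.Agent.H65.TS.Base`, the condition on `α` (monotone,
unbounded, computable in polynomial time in unary notation) in `Pool.Agent.H69.NL.Defs`, Boolean
circuits in `Pool.Agent.H18.CB.Defs`, and `E^NP` in `Pool.Agent.H18.CB.ENP`.

Theorem.  Suppose that some total NP search problem is complete under polynomial time Turing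
reductions (many-one completeness is a special case).  Let `α` be as above, for example `log n` or
`log log n`.  Then there are a total NP
search problem `S`, a set `K` in `E^NP` and a positive constant `k` such that for infinitely many `m`,
with `L = k m + 10`:
* every solution of the instance `1^(2^m)` of `S` is the truth table of a Boolean function of `L`
  variables which is not computed by any circuit of at most `2 ^ (L / α(L))` gates;
* the restriction of `K` to the strings of length `L` is such a solution.
So a disproof of Q1 gives nearly exponential circuit lower bounds for `E^NP`; if the sets in `E^NP` have
circuits of size `2 ^ (n / α(n))`, for one such `α`, then no total NP search problem is complete.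

Proof.  Let `T` be any total problem.  The lengths `n = 2 ^ k` name lists of programs `(e, i, j)` (keys),
every list is named by infinitely many lengths.  Let `z` be a string of length about `k a(n)` which
describes `n`, with `a = log log α(log n)`.  A computation of a universal program which runs program `e`
on `1^n` and a witness of length at most `n ^ a(n)` is described by a tableau, which is an oracle for
strings of length `L = O(|z|)`, and which is correct iff it passes local tests at all
positions (strings of length `O(|z|)`).

* A solution of the instance `(1^n, D)` of `S1`, `D` a circuit with `L` inputs, of size at most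
  polynomial in `n`, is a position at which the tableau computed by `D` fails the local test.
* A solution of the instance `1^N 0 1^n`, `N = n ^ (2 ^ β)`, of `S0` is a pair `D`, `w` which refutes that
  the programs `j` are a reduction from `S1` to `T` which is correct at the instances `(1^n, D)`.
* Program `e` accepts the witnesses `w` which refute that the programs `i` are a reduction from
  `S0` to `T` which is correct at the instance `1^N 0 1^n`.
* A solution of the instance `1^M`, `M = 2 ^ (|z| + 1)`, of `S` is a table of length `2 ^ L` which is
  either a correct accepting tableau for `z`, or contains a solution of the instance `1^N 0 1^n` of `S0`.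

`S` is total: `T` has a solution `w` of the image of `1^N 0 1^n` under `i`; if it does not give
a solution of `S0`, then `e` accepts it.  Suppose that `S` has a solution with circuits of size
`2 ^ (L / α(L))`, which is at most `n`, for all large `n`.  Then `S0` is total (for large `n`): if
`1^N 0 1^n` has no solution, then no `D` is refuted, so, as `T` is total, the tableaux of all circuits
`D` fail the test somewhere, so the easy solution of `S` is not a tableau, so it contains a
solution of `S0`, a contradiction.  Let `T` be complete.  Let `i` be a reduction from `S0` to `T`.  Then,
for the `n` which name `e, i`, program `e` accepts nothing, so all tableaux fail the test, and `S1`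
(restricted to these `n`) is total.  Let `j` be a reduction from `S1` to `T`.  For the `n` which name
`e, i, j` the problem `S0` has no solution: a contradiction.
-/

set_option autoImplicit false

namespace Pool.Agent.H18.CB.Res

open Pool.Agent.H88.RO Pool.Agent.H65.TS Pool.Agent.H69.NL Pool.Agent.H18.CB
open Pool.Agent.H93.BB (zero)
open Pool.Agent.H93.BB.Tab (val)

/-- **If there is a complete total NP search problem (under Turing reductions), then some total NP
search problem has only solutions of nearly exponential circuit complexity, at infinitely many
instances `1^(2^m)`, and some set in `E^NP` has nearly exponential circuit complexity.** -/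
theorem result :
    (Slow zero (fun n => Nat.log 2 n) ∧ Slow zero (fun n => Nat.log 2 (Nat.log 2 n))) ∧
    ∀ α : ℕ → ℕ, Slow zero α → (∃ T : TFNP zero, ∀ S : TFNP zero, TuringReduces S T) →
      ∃ (S : TFNP zero) (K : Set (List Bool)) (k : ℕ), InENP K ∧ 0 < k ∧
        ∀ B : ℕ, ∃ m L : ℕ, B ≤ m ∧ L = k * m + 10 ∧
          (∀ y : List Bool, S.IsSol (ones (2 ^ m)) y → y.length = 2 ^ L ∧
            ∀ C : Circuit, Computes C y → 2 ^ L < C.length ^ α L) ∧
          ∃ y : List Bool, S.IsSol (ones (2 ^ m)) y ∧
            ∀ x : List Bool, x.length = L → (x ∈ K ↔ y.getD (val x) false = true) := by
  refine ⟨⟨slow_log, slow_log_log⟩, fun α hα ⟨T, hT⟩ => ?_⟩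
  obtain ⟨H, hH⟩ := Pool.Agent.H91.EL.complete_of_turing hT
  obtain ⟨S, k, hk, hS⟩ := hard_solutions hH hα
  obtain ⟨K, hK, hK'⟩ := exists_InENP S hk
  refine ⟨S, K, k, hK, hk, fun B => ?_⟩
  obtain ⟨m, hm, hy⟩ := hS B
  obtain ⟨y, hy1, hy2⟩ := hK' m (fun y h => (hy y h).1)
  exact ⟨m, _, hm, rfl, hy, y, hy1, fun x hx => (hy2 x hx).symm⟩

end Pool.Agent.H18.CB.Res
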