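import Pool.Agent.H18.CB.AllT
import Pool.Agent.H18.CB.Pack

set_option autoImplicit false

/-!
# The problem `S2`

For a marked length `n` (with `Cd F.a dP e c n`) a solution of the instance `1^M`, `M = F.M n`, is
a table of length `2 ^ F.L n` which is a correct tableau, or contains a string with `Core`.

PROOF. The relation: `R x y` iff there is no `n < x.length` with `Cd F.a dP e c n`, `F.M n = x.length`
and NOT (`y.length = 2 ^ F.L n` and (all tests pass or `D.Core n (unpack y)`)).
Program: `FP_bex` with `M v = fst v`, `X v = v` (`n + 1 ≤ F.M n`, `Frm.n_le`) and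
`G w`, `w = node (num n) (node (enc x) (enc y))`, the conjunction (`andT`) of the tests
* `Cd`: `D.exists_cdT e c`;
* `F.M n = x.length`: `p2T X` and `eqL (lgT X) (node leaf (enc z))`, `X = enc x` (`M = 2 ^ (|z| + 1)`), `z` from
  `exists_zT F.ha.polyTime`;
* not (length and (all or Core)): `cs _ leaf tt` of the test `andT len (cs all core tt)`;
  length: `p2T Y` and `eqL (lgT Y) (num (F.L n))` (in unary by `mulU`, `addU` from `z`);
  all: `F.exists_allT`; Core: `N1 F.a n < y.length` (`Frm.N1_lt_L`), so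
  `D.Core n w'` iff for some `m < y.length`: `m = N1 D.a n` (`D.exists_n1T`) and the program `coreT` of
  `D.exists_coreT` accepts `(enc (ones n), num m, enc w')`, again `FP_bex`; `w' = unpack y`:
  `tkT (fst (parseT Y)) (fst (snd (parseT Y)))` (`tkT_enc`, `fst_parseT`, `snd_parseT`).
  (`onesPre (num n) leaf = enc (ones n)`.) The tests `all` and `core` are only needed correctly
  if `y.length = 2 ^ F.L n`.
Arguments have to be normalised (`polyTimeRel_of_FP` gives them as `enc x`, `enc y`, so nothing to do).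
Solutions are bounded: `2 ^ F.L n = F.M n ^ (2 * F.D) * 1024` (`Frm.two_pow_L`), so
`p = X ^ (2 * F.D) * 1024`. Total: if `x.length = F.M n` for some `n` with `Cd F.a dP e c n`
(unique by `Frm.M_inj`) use `htot n`, otherwise `[]` is a solution.
(See `Dat.exists_S0` in `Pool.Agent.H69.NL.Ref` for the pattern.)
-/

namespace Pool.Agent.H18.CB

open Pool.Agent.H88.RO Pool.Agent.H88.RO.Tr Pool.Agent.H65.TS Pool.Agent.H65.NU Pool.Agent.H69.NL
open Pool.Agent.H93.BB (Orc zero)
open Pool.Agent.H40.EL (andT andT_spec FP.andT' lam lamT lamT_eq FP.lamT' sqT sqT_spec FP.sqT'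
  lgT lgT_eq FP.lgT' p2T p2T_spec FP.p2T')

/-- a polynomial time program for the relation -/
theorem Frm.exists_S2T (F : Frm) (D : Dat zero) (hDa : D.a = F.a) (hDd : D.d = dP) (e c : ℕ) :
    ∃ R : List Bool → List Bool → Bool, PolyTimeRel zero R ∧ ∀ x y : List Bool,
      R x y = true ↔ ∀ n, Cd F.a dP e c n → F.M n = x.length → y.length = 2 ^ F.L n ∧
        ((∀ u, Ok F.D F.cU (tor y) (zS F.a n) u) ∨ D.Core n (unpack y)) := by
  classical
  obtain ⟨cT, hc1, hc2⟩ := D.exists_cdT e c
  obtain ⟨zT, hz1, hz2⟩ := exists_zT F.ha.polyTime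
  obtain ⟨aT, ha1, ha2⟩ := F.exists_allT
  obtain ⟨coreT, hk1, hk2⟩ := D.exists_coreT
  obtain ⟨nT, hn1, hn2⟩ := D.exists_n1T
  have i1 : FP zero (fun v => fst v) := FP.fst' FP.id'
  have i2 : FP zero (fun v => snd v) := FP.snd' FP.id'
  have i21 : FP zero (fun v => fst (snd v)) := FP.fst' i2
  have i22 : FP zero (fun v => snd (snd v)) := FP.snd' i2
  -- the program for `Core`
  have hG1 : FP zero (fun w => andT (nT (fst (snd w)) (fst w))
      (coreT (onesPre (fst (snd w)) leaf) (fst w) (snd (snd w)))) :=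
    FP.andT' (hn1 i21 i1) (hk1 (FP.onesPre' i21 FP.leaf') i1 i22)
  have hX1 : FP zero (fun v => node (fst v) (tkT (fst (parseT (snd v)))
      (fst (snd (parseT (snd v)))))) :=
    FP.node' i1 (FP.tkT' (FP.fst' (FP.parseT' i2)) (FP.fst' (FP.snd' (FP.parseT' i2))))
  obtain ⟨H1, hH1, hH1'⟩ := FP_bex hG1 (M := fun v => snd v) i2 hX1
  have hcore : ∀ (n : ℕ) (y : List Bool), y.length = 2 ^ F.L n →
      (H1 (node (num n) (enc y)) ≠ leaf ↔ D.Core n (unpack y)) := by
    intro n y hy
    rw [hH1']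
    simp only [fst_node, snd_node, fst_parseT, snd_parseT, tkT_enc, len_num, len_enc]
    constructor
    · rintro ⟨m, hm, h⟩
      rw [andT_spec, hn2, len_num, len_num, onesPre_leaf, len_num] at h
      exact (hk2 n (num m) (unpack y) (by rw [len_num]; exact h.1)).mp h.2
    · intro h
      refine ⟨N1 D.a n, ?_, ?_⟩
      · rw [hDa, hy]
        exact F.N1_lt_L n
      · rw [andT_spec, hn2, len_num, len_num, onesPre_leaf, len_num]
        exact ⟨rfl, (hk2 n (num (N1 D.a n)) (unpack y) (by rw [len_num])).mpr h⟩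
  -- powers of two
  have hp2 : ∀ (v : Tr) (k : Tr), andT (p2T v) (eqL (lgT v) k) ≠ leaf ↔ len v = 2 ^ len k := by
    intro v k
    rw [andT_spec, p2T_spec, eqL_spec, lgT_eq, len_num]
    constructor
    · rintro ⟨⟨i, hi⟩, h⟩
      rw [hi, Nat.log_pow (by norm_num)] at h
      rw [hi, h]
    · intro h
      refine ⟨⟨_, h⟩, ?_⟩
      rw [h, Nat.log_pow (by norm_num)]
  have hM : ∀ (n : ℕ) (x : List Bool),
      andT (p2T (enc x)) (eqL (lgT (enc x)) (node leaf (zT (num n)))) ≠ leaf ↔
        F.M n = x.length := by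
    intro n x
    rw [hp2, len_enc, hz2, len_num]
    have e1 : len (node leaf (enc (zS F.a n))) = (zS F.a n).length + 1 := by
      rw [show len (node leaf (enc (zS F.a n))) = len (enc (zS F.a n)) + 1 from rfl, len_enc]
    rw [e1, Frm.M]
    exact ⟨fun h => h.symm, fun h => h.symm⟩
  have hL : ∀ (n : ℕ) (y : List Bool),
      andT (p2T (enc y)) (eqL (lgT (enc y))
        (addU (mulU (num (2 * F.D)) (node leaf (zT (num n)))) (num 10))) ≠ leaf ↔
        y.length = 2 ^ F.L n := by
    intro n y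
    rw [hp2, len_enc, hz2, len_num, Lazy.len_addU, mulU_eq, len_num, len_num, len_num]
    have e1 : len (node leaf (enc (zS F.a n))) = (zS F.a n).length + 1 := by
      rw [show len (node leaf (enc (zS F.a n))) = len (enc (zS F.a n)) + 1 from rfl, len_enc]
    rw [e1, Frm.L, nL, nA, Nat.mul_assoc]
  -- the program which finds an error
  let G : Tr → Tr := fun w => andT (cT (fst w))
    (andT (andT (p2T (fst (snd w))) (eqL (lgT (fst (snd w))) (node leaf (zT (fst w)))))
      (cs (andT (andT (p2T (snd (snd w))) (eqL (lgT (snd (snd w)))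
          (addU (mulU (num (2 * F.D)) (node leaf (zT (fst w)))) (num 10))))
        (cs (aT (node (fst w) (snd (snd w)))) (H1 (node (fst w) (snd (snd w)))) tt)) tt leaf))
  have hG : FP zero G :=
    FP.andT' (hc1 i1) (FP.andT' (FP.andT' (FP.p2T' i21)
      (FP.eqL' (FP.lgT' i21) (FP.node' FP.leaf' (hz1 i1))))
      (FP.cs' (FP.andT' (FP.andT' (FP.p2T' i22) (FP.eqL' (FP.lgT' i22)
        (FP.addU' (FP.mulU' (FP.const' _) (FP.node' FP.leaf' (hz1 i1))) (FP.const' _))))
        (FP.cs' (FP.comp' ha1 (FP.node' i1 i22)) (FP.comp' hH1 (FP.node' i1 i22))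
          (FP.const' tt))) (FP.const' tt) FP.leaf'))
  have hG' : ∀ (n : ℕ) (x y : List Bool), G (node (num n) (node (enc x) (enc y))) ≠ leaf ↔
      (Cd F.a dP e c n ∧ F.M n = x.length ∧ ¬ (y.length = 2 ^ F.L n ∧
        ((∀ u, Ok F.D F.cU (tor y) (zS F.a n) u) ∨ D.Core n (unpack y)))) := by
    intro n x y
    simp only [G, fst_node, snd_node]
    rw [andT_spec, andT_spec, hc2, hM, len_num, hDa, hDd]
    refine and_congr Iff.rfl (and_congr Iff.rfl ?_)
    have h1 : andT (andT (p2T (enc y)) (eqL (lgT (enc y))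
        (addU (mulU (num (2 * F.D)) (node leaf (zT (num n)))) (num 10))))
        (cs (aT (node (num n) (enc y))) (H1 (node (num n) (enc y))) tt) ≠ leaf ↔
        (y.length = 2 ^ F.L n ∧
        ((∀ u, Ok F.D F.cU (tor y) (zS F.a n) u) ∨ D.Core n (unpack y))) := by
      rw [andT_spec, hL]
      refine and_congr_right fun hy => ?_
      by_cases h2 : ∀ u, Ok F.D F.cU (tor y) (zS F.a n) u
      · rw [cs_neg _ _ ((ha2 n y hy).mpr h2)]
        simp [h2]
      · rw [cs_pos _ _ (by
          by_contra h3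
          exact h2 ((ha2 n y hy).mp h3)), hcore n y hy]
        exact ⟨fun h => Or.inr h, fun h => h.resolve_left h2⟩
    by_cases h2 : andT (andT (p2T (enc y)) (eqL (lgT (enc y))
        (addU (mulU (num (2 * F.D)) (node leaf (zT (num n)))) (num 10))))
        (cs (aT (node (num n) (enc y))) (H1 (node (num n) (enc y))) tt) = leaf
    · rw [cs_pos _ _ h2]
      exact ⟨fun _ h => h1.mpr h h2, fun _ => tt_ne⟩
    · rw [cs_neg _ _ h2]
      exact ⟨fun h => absurd rfl h, fun h => absurd (h1.mp h2) h⟩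
  obtain ⟨H, hH, hH'⟩ := FP_bex hG (M := fun v => fst v) (X := fun v => v) i1 FP.id'
  refine ⟨fun x y => decide (∀ n, Cd F.a dP e c n → F.M n = x.length → y.length = 2 ^ F.L n ∧
        ((∀ u, Ok F.D F.cU (tor y) (zS F.a n) u) ∨ D.Core n (unpack y))), ?_, fun x y => ?_⟩
  · refine polyTimeRel_of_FP (FP.cs' hH (FP.const' tt) FP.leaf') (fun x y => ?_)
    rw [decide_eq_true_eq]
    by_cases h : H (node (enc x) (enc y)) = leaf
    · rw [cs_pos _ _ h]
      refine ⟨fun _ n hn hx => ?_, fun _ => tt_ne⟩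
      by_contra h2
      apply (hH' (node (enc x) (enc y))).mpr ?_ h
      refine ⟨n, ?_, (hG' n x y).mpr ⟨hn, hx, h2⟩⟩
      rw [fst_node, len_enc, ← hx]
      exact F.n_le n
    · rw [cs_neg _ _ h]
      refine ⟨fun h2 => absurd rfl h2, fun h2 => ?_⟩
      obtain ⟨n, _, h3⟩ := (hH' (node (enc x) (enc y))).mp h
      obtain ⟨h4, h5, h6⟩ := (hG' n x y).mp h3
      exact absurd (h2 n h4 h5) h6
  · rw [decide_eq_true_eq]

theorem Frm.exists_S2 (F : Frm) (D : Dat zero) (hDa : D.a = F.a) (hDd : D.d = dP) (e c : ℕ)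
    (htot : ∀ n, Cd F.a dP e c n → ∃ y : List Bool, y.length = 2 ^ F.L n ∧
      ((∀ u, Ok F.D F.cU (tor y) (zS F.a n) u) ∨ D.Core n (unpack y))) :
    ∃ S : TFNP zero, ∀ (n : ℕ) (y : List Bool), Cd F.a dP e c n → S.IsSol (ones (F.M n)) y →
      y.length = 2 ^ F.L n ∧
        ((∀ u, Ok F.D F.cU (tor y) (zS F.a n) u) ∨ D.Core n (unpack y)) := by
  obtain ⟨R, hR, hR'⟩ := F.exists_S2T D hDa hDd e c
  have htotal : ∀ x : List Bool, ∃ y : List Bool,
      y.length ≤ (Polynomial.X ^ (2 * F.D) * 1024 : Polynomial ℕ).eval x.length ∧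
        R x y = true := by
    intro x
    by_cases h : ∃ n, Cd F.a dP e c n ∧ F.M n = x.length
    · obtain ⟨n, hn, hx⟩ := h
      obtain ⟨y, hy, h1⟩ := htot n hn
      refine ⟨y, ?_, ?_⟩
      · rw [hy, F.two_pow_L, hx, Polynomial.eval_mul, Polynomial.eval_pow, Polynomial.eval_X,
          Polynomial.eval_ofNat]
      · rw [hR']
        intro n' hn' hx'
        have h2 : n' = n := F.M_inj hn'.1 hn.1 (hx'.trans hx.symm)
        subst h2
        exact ⟨hy, h1⟩
    · exact ⟨[], by simp, (hR' x []).mpr (fun n hn hx => absurd ⟨n, hn, hx⟩ h)⟩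
  refine ⟨⟨R, _, hR, htotal⟩, ?_⟩
  intro n y hn hy
  exact (hR' _ _).mp hy.2 n hn (by rw [ones_length])

end Pool.Agent.H18.CB
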