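import Pool.Agent.H18.CB.Defs
import Pool.Agent.H93.BT.W

set_option autoImplicit false

/-!
# The universal program

PROOF. `polyTime_RU` (`Pool.Agent.H69.NL.Univ`) gives a program for `RU` on `node (enc x) (enc y)`. First
compute from `v = node (enc z) Y` the tree `num ((prs z).1)` (`fst (parseT (fst v))`, `FP.parseT'`), then
`num (2 ^ (prs z).1)` with the program of `exists_pow2` (`Pool.Agent.H93.BT.W`; time polynomial in the size
plus the power), then `onesPre _ leaf = enc (ones _)`, and `norm Y = enc (dec Y)`, and run the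
program of `RU`. Composition of programs as in `exists_W` in `Pool.Agent.H93.BT.W` (which is the pattern
for the whole proof, also for the polynomial bound of the time).
-/

namespace Pool.Agent.H18.CB

open Pool.Agent.H88.RO Pool.Agent.H88.RO.Tr Pool.Agent.H65.TS Pool.Agent.H65.NU Pool.Agent.H69.NL
open Pool.Agent.H93.BB (Orc zero)

theorem exists_cU {d : ℕ → Bool} (hd : PolyTimeFun zero (fun x => [d x.length])) :
    ∃ (cU : Prog) (q : Polynomial ℕ), ∀ (z : List Bool) (Y : Tr),
      ∃ t ≤ q.eval (size (node (enc z) Y) + 2 ^ (prs z).1),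
        Eval zero cU (node (enc z) Y) (bit (RU zero d (ones (2 ^ (prs z).1)) (dec Y))) t := by
  obtain ⟨cV, qV, hV⟩ : FP zero (fun u => bit (Pool.Agent.H69.NL.RU zero d
      (dec (onesPre (fst u) leaf)) (dec (snd (snd u))))) :=
    FP.rel (polyTime_RU hd) (FP.onesPre' (FP.fst' FP.id') FP.leaf') (FP.snd' (FP.snd' FP.id'))
  obtain ⟨cP, qP, hP⟩ := Pool.Agent.H93.BB.exists_pow2
  obtain ⟨ck, qk, hk⟩ : FP zero (fun v => fst (parseT (fst v))) :=
    FP.fst' (FP.parseT' (FP.fst' FP.id'))
  refine ⟨Prog.comp cV (Prog.pair (Prog.comp cP ck) Prog.id),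
    qV.comp (4 * Polynomial.X + 4) + qP.comp (3 * Polynomial.X + 3) + qk + 10 * Polynomial.X + 10,
    fun z Y => ?_⟩
  set v := node (enc z) Y with hv
  obtain ⟨t1, ht1, he1⟩ := hk v
  have e1 : fst (parseT (fst v)) = num (prs z).1 := by rw [hv, fst_node, fst_parseT]
  simp only [e1] at he1
  obtain ⟨t3, ht3, he3⟩ := hP (num (prs z).1)
  rw [len_num] at he3 ht3
  obtain ⟨t5, ht5, he5⟩ := hV (node (num (2 ^ (prs z).1)) v)
  have he := Eval.comp (Eval.pair (Eval.comp he1 he3) (Eval.id v)) he5
  simp only [fst_node, snd_node, onesPre_leaf, len_num, dec_enc] at he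
  have hY : snd v = Y := by rw [hv, snd_node]
  rw [hY] at he
  refine ⟨_, ?_, he⟩
  have hs1 : size (num (prs z).1) ≤ 2 * size v := by
    rw [size_num]
    have h1 := prs_le z
    have h4 : len (enc z) + 1 ≤ size (enc z) := len_le_size _
    rw [len_enc] at h4
    rw [hv]
    simp only [size] at *
    omega
  simp only [size, size_num] at ht5
  simp only [Polynomial.eval_add, Polynomial.eval_mul, Polynomial.eval_comp, Polynomial.eval_X,
    Polynomial.eval_ofNat]
  generalize 2 ^ (prs z).1 = p1 at *
  have b1 : qV.eval (2 * p1 + 1 + size v + 1) ≤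
      qV.eval (4 * (size v + p1) + 4) := poly_mono _ (by omega)
  have b2 : qP.eval (size (num (prs z).1) + p1) ≤ qP.eval (3 * (size v + p1) + 3) :=
    poly_mono _ (by omega)
  have b4 : qk.eval (size v) ≤ qk.eval (size v + p1) := poly_mono _ (by omega)
  omega

end Pool.Agent.H18.CB
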