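import Pool.Agent.H18.CB.FrmE

set_option autoImplicit false

/-!
# The short strings: programs and bounds

PROOF of `exists_zT`: `zS a n = List.replicate (log n) true ++ false :: ones ((log n + 2) * a n)`, so
`enc (zS a n) = onesPre (lgT X) (node leaf (onesPre (mulU (node leaf (node leaf (lgT X))) (aT X)) leaf))`
for `len X = n`, with a program `aT` for `a` in unary (see `Dat.exists_aT` in `Pool.Agent.H69.NL.Ref`,
which needs only `ha : PolyTimeFun O (fun x => ones (a x.length))`; copy its three lines),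
`lgT` from `Pool.Agent.H40.EL.Arith2`, `onesPre_enc`, `onesPre_leaf`.
PROOF of `exists_zB`: from `exists_zT` and `FP.size_bound` at `num n` (or from the bound for `a`):
`(zS a n).length = len (enc ..) ≤ size (zT (num n)) ≤ s (size (num n)) = s (2 n + 1)`.
`zS_length`: by definition; `|z| + 1 = (log n + 2) (a n + 1)`.
`pow_le_zS`: `n + 2 ≤ 2 ^ (log n + 2)` (`Nat.lt_pow_succ_log_self`), so
`(n + 2) ^ a n ≤ 2 ^ ((log n + 2) * a n) ≤ 2 ^ |z|`.
`M_inj`: for powers of two `n < n'` we have `log n < log n'`, `a n ≤ a n'` (monotone), so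
`(log n + 2) (a n + 1) < (log n' + 2) (a n' + 1)`.
-/

namespace Pool.Agent.H18.CB

open Pool.Agent.H88.RO Pool.Agent.H88.RO.Tr Pool.Agent.H65.TS Pool.Agent.H65.NU Pool.Agent.H69.NL
open Pool.Agent.H93.BB (Orc zero)
open Pool.Agent.H40.EL (lgT lgT_eq)

theorem zS_length (a : ℕ → ℕ) (n : ℕ) :
    (zS a n).length + 1 = (Nat.log 2 n + 2) * (a n + 1) := by
  simp only [zS, List.length_append, List.length_replicate, List.length_cons, ones_length]
  ring

private theorem n_lt_pow (n : ℕ) : n + 1 ≤ 2 ^ (Nat.log 2 n + 1) :=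
  Nat.lt_pow_succ_log_self (by norm_num) n

private theorem n_le_pow (n : ℕ) : n + 2 ≤ 2 ^ (Nat.log 2 n + 2) := by
  have h1 := n_lt_pow n
  have h2 : 2 ^ (Nat.log 2 n + 2) = 2 * 2 ^ (Nat.log 2 n + 1) := by
    rw [pow_succ' 2 (Nat.log 2 n + 1)]
  have h3 : 1 ≤ 2 ^ (Nat.log 2 n + 1) := Nat.one_le_two_pow
  omega

theorem pow_le_zS (a : ℕ → ℕ) (n : ℕ) : (n + 2) ^ a n ≤ 2 ^ (zS a n).length := by
  calc (n + 2) ^ a n ≤ (2 ^ (Nat.log 2 n + 2)) ^ a n := Nat.pow_le_pow_left (n_le_pow n) _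
    _ = 2 ^ ((Nat.log 2 n + 2) * a n) := by rw [← pow_mul]
    _ ≤ 2 ^ (zS a n).length := by
      refine Nat.pow_le_pow_right (by norm_num) ?_
      simp only [zS, List.length_append, List.length_replicate, List.length_cons, ones_length]
      omega

theorem exists_zT {a : ℕ → ℕ} (ha : PolyTimeFun zero (fun x => ones (a x.length))) :
    ∃ zT : Tr → Tr, (∀ {F : Tr → Tr}, FP zero F → FP zero (fun v => zT (F v))) ∧
      ∀ v, zT v = enc (zS a (len v)) := by
  obtain ⟨aT, ha1, ha2⟩ : ∃ aT : Tr → Tr, (∀ {F : Tr → Tr}, FP zero F → FP zero (fun v => aT (F v))) ∧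
      ∀ v, len (aT v) = a (len v) := by
    refine ⟨fun v => enc (ones (a (dec v).length)), fun hF => FP.fn ha hF, fun v => ?_⟩
    rw [len_enc, ones_length, length_dec]
  refine ⟨fun v => onesPre (lgT v) (node leaf
    (onesPre (mulU (node leaf (node leaf (lgT v))) (aT v)) leaf)), fun hF => ?_, fun v => ?_⟩
  · exact FP.onesPre' (Pool.Agent.H40.EL.FP.lgT' hF) (FP.node' FP.leaf' (FP.onesPre'
      (FP.mulU' (FP.node' FP.leaf' (FP.node' FP.leaf' (Pool.Agent.H40.EL.FP.lgT' hF))) (ha1 hF)) FP.leaf'))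
  · have e1 : ∀ X : List Bool, node leaf (enc X) = enc (false :: X) := fun X => rfl
    have e2 : len (node leaf (node leaf (lgT v))) = Nat.log 2 (len v) + 2 := by
      change len (lgT v) + 1 + 1 = _
      rw [lgT_eq, len_num]
    change onesPre (lgT v) (node leaf (onesPre (mulU (node leaf (node leaf (lgT v))) (aT v)) leaf)) = _
    rw [onesPre_leaf, e1, onesPre_enc, mulU_eq, len_num, e2, ha2, lgT_eq, len_num]
    rfl

theorem exists_zB {a : ℕ → ℕ} (ha : PolyTimeFun zero (fun x => ones (a x.length))) :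
    ∃ P : Polynomial ℕ, ∀ n, (zS a n).length ≤ P.eval n := by
  obtain ⟨zT, h1, h2⟩ := exists_zT ha
  obtain ⟨s, hs⟩ := (h1 FP.id').size_bound
  refine ⟨s.comp (2 * Polynomial.X + 1), fun n => ?_⟩
  have h3 := hs (num n)
  have h4 := len_le_size (enc (zS a n))
  simp only [h2, len_num, size_num] at h3
  rw [len_enc] at h4
  simp only [Polynomial.eval_comp, Polynomial.eval_add, Polynomial.eval_mul, Polynomial.eval_X,
    Polynomial.eval_one, Polynomial.eval_ofNat]
  omega

theorem Frm.M_inj (F : Frm) {n n' : ℕ} (hn : dP n = true) (hn' : dP n' = true)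
    (h : F.M n = F.M n') : n = n' := by
  have h1 : 2 ^ Nat.log 2 n = n := of_decide_eq_true hn
  have h2 : 2 ^ Nat.log 2 n' = n' := of_decide_eq_true hn'
  have h3 : (zS F.a n).length + 1 = (zS F.a n').length + 1 := Nat.pow_right_injective le_rfl h
  rw [zS_length, zS_length] at h3
  have key : ∀ p q : ℕ, 2 ^ Nat.log 2 p = p → 2 ^ Nat.log 2 q = q → Nat.log 2 p < Nat.log 2 q →
      (Nat.log 2 p + 2) * (F.a p + 1) < (Nat.log 2 q + 2) * (F.a q + 1) := by
    intro p q hp hq hpq
    have h4 : p ≤ q := by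
      rw [← hp, ← hq]
      exact Nat.pow_le_pow_right (by norm_num) hpq.le
    have h5 := F.ha.mono h4
    calc (Nat.log 2 p + 2) * (F.a p + 1) < (Nat.log 2 q + 2) * (F.a p + 1) :=
          Nat.mul_lt_mul_of_pos_right (by omega) (by omega)
      _ ≤ (Nat.log 2 q + 2) * (F.a q + 1) := Nat.mul_le_mul_left _ (by omega)
  rcases lt_trichotomy (Nat.log 2 n) (Nat.log 2 n') with h4 | h4 | h4
  · exact absurd h3 (key n n' h1 h2 h4).ne
  · rw [← h1, ← h2, h4]
  · exact absurd h3 (key n' n h2 h1 h4).ne'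

/-- the number of variables is polynomially bounded -/
theorem Frm.exists_LB (F : Frm) : ∃ P : Polynomial ℕ, ∀ n, F.L n ≤ P.eval n := by
  obtain ⟨P, hP⟩ := exists_zB F.ha.polyTime
  refine ⟨Polynomial.C (2 * F.D) * (P + 1) + 10, fun n => ?_⟩
  have h1 := hP n
  simp only [Polynomial.eval_add, Polynomial.eval_mul, Polynomial.eval_C, Polynomial.eval_one,
    Polynomial.eval_ofNat, Frm.L, nL, nA]
  have h2 : F.D * ((zS F.a n).length + 1) ≤ F.D * (P.eval n + 1) := Nat.mul_le_mul_left _ (by omega)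
  have h3 : 2 * F.D * (P.eval n + 1) = 2 * (F.D * (P.eval n + 1)) := by ring
  omega

/-- the length of the tables is a polynomial in the length of the instances -/
theorem Frm.two_pow_L (F : Frm) (n : ℕ) : 2 ^ F.L n = F.M n ^ (2 * F.D) * 1024 := by
  unfold Frm.L Frm.M nL nA
  rw [pow_add, ← pow_mul]
  congr 2
  ring

private theorem Frm.D_pos (F : Frm) : 1 ≤ F.D := by
  unfold Frm.D
  omega

theorem Frm.M_le (F : Frm) (n : ℕ) : F.M n ≤ 2 ^ F.L n := by
  unfold Frm.L Frm.M nL nA
  refine Nat.pow_le_pow_right (by norm_num) ?_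
  have h1 := Nat.mul_le_mul_right ((zS F.a n).length + 1) F.D_pos
  omega

theorem Frm.n_le (F : Frm) (n : ℕ) : n + 1 ≤ F.M n := by
  refine (n_lt_pow n).trans ?_
  unfold Frm.M
  refine Nat.pow_le_pow_right (by norm_num) ?_
  simp only [zS, List.length_append, List.length_replicate, List.length_cons, ones_length]
  omega

end Pool.Agent.H18.CB
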